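import Pool.Agent.E8helper73.ZO.Grow

/-!
# Dimensions over the rational numbers
-/

set_option autoImplicit false
set_option linter.unusedSectionVars false

open CategoryTheory Limits MonoidalCategory Module
open Pool.Agent.Y112.SR Pool.Agent.Y112.KD Pool.Agent.Y112.SC Pool.Agent.R484.NC
open Pool.Agent.Y133.Half

namespace Pool.Agent.E8helper73.ZO

universe v u w

/-- Dual vectors of linearly independent linear forms. -/
lemma exists_dual_vec {k B : Type*} [Field k] [AddCommGroup B] [Module k B] {r : ℕ}
    {v : Fin r → Dual k B} (hv : LinearIndependent k v) :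
    ∃ y : Fin r → B, ∀ i j, v i (y j) = if i = j then 1 else 0 := by
  have hs : Function.Surjective (LinearMap.pi v) := by
    rw [← LinearMap.dualMap_injective_iff, ← LinearMap.ker_eq_bot, LinearMap.ker_eq_bot']
    intro φ hφ
    have h1 : ∑ i, φ (Pi.single i 1) • v i = 0 := by
      apply LinearMap.ext
      intro b
      have h2 := congrArg (fun f : Dual k B => f b) hφ
      simp only [LinearMap.dualMap_apply, LinearMap.zero_apply] at h2
      refine Eq.trans ?_ h2
      have h3 : LinearMap.pi v b = ∑ i, v i b • (Pi.single i (1 : k) : Fin r → k) := by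
        funext j
        simp [Finset.sum_apply, Pi.single_apply]
      rw [h3, map_sum, LinearMap.sum_apply]
      refine Finset.sum_congr rfl fun i _ => ?_
      rw [map_smul, LinearMap.smul_apply, smul_eq_mul, smul_eq_mul, mul_comm]
    have h4 := Fintype.linearIndependent_iff.1 hv _ h1
    apply LinearMap.pi_ext'
    intro i
    apply LinearMap.ext_ring
    simpa using h4 i
  choose y hy using fun j : Fin r => hs (Pi.single j 1)
  refine ⟨y, fun i j => ?_⟩
  have := congrFun (hy j) i
  rw [LinearMap.pi_apply] at this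
  rw [this, Pi.single_apply]

section defs

variable {C : Type u} [Category.{v} C] [Preadditive C] [Linear ℚ C] [MonoidalCategory C]
  [MonoidalPreadditive C] [MonoidalLinear ℚ C] [SymmetricCategory C] [RightRigidCategory C]

/-- The space of the functions `g ↦ tr (g ∘ f)`, `f` in the span of the set `T` of endomorphisms:
the span of `T` modulo numerical equivalence. -/
def numSpan (hU : UnitQ C) {X : C} (T : Set (X ⟶ X)) : Submodule ℚ ((X ⟶ X) → ℚ) :=
  Submodule.span ℚ ((fun (f : X ⟶ X) (g : X ⟶ X) => ctr hU (f ≫ g)) '' T)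

/-- The dimension of the span of the set `T` of endomorphisms modulo numerical equivalence. -/
noncomputable def numDim (hU : UnitQ C) {X : C} (T : Set (X ⟶ X)) : ℕ :=
  Module.finrank ℚ (numSpan hU T)

end defs

variable {C : Type u} [Category.{v} C] [Preadditive C] [Linear ℚ C] [MonoidalCategory C]
  [MonoidalPreadditive C] [MonoidalLinear ℚ C] [SymmetricCategory C]
  [RightRigidCategory C] {K : Type w} [Field K] {R : SuperRealisation C K}

variable {X : C}

/-- The functional of an endomorphism. -/
noncomputable def fnl (hU : UnitQ C) (X : C) : (X ⟶ X) →ₗ[ℚ] Dual ℚ (X ⟶ X) :=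
  LinearMap.mk₂ ℚ (fun f g => ctr hU (f ≫ g))
    (fun f f' g => by rw [Preadditive.add_comp, ctr_add])
    (fun q f g => by rw [Linear.smul_comp, ctr_smul]; rfl)
    (fun f g g' => by rw [Preadditive.comp_add, ctr_add])
    (fun q f g => by rw [Linear.comp_smul, ctr_smul]; rfl)

lemma fnl_apply (hU : UnitQ C) (f g : X ⟶ X) : fnl hU X f g = ctr hU (f ≫ g) := rfl

/-- the functions as functionals -/
lemma numSpan_eq (hU : UnitQ C) (T : Set (X ⟶ X)) : numSpan hU T =
    ((Submodule.span ℚ T).map (fnl hU X)).map
      (LinearMap.ltoFun ℚ (X ⟶ X) ℚ ℚ : Dual ℚ (X ⟶ X) →ₗ[ℚ] ((X ⟶ X) → ℚ)) := by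
  rw [numSpan, Submodule.map_span, Submodule.map_span, Set.image_image]
  rfl

lemma numDim_eq (hU : UnitQ C) (T : Set (X ⟶ X)) : numDim hU T =
    finrank ℚ ((Submodule.span ℚ T).map (fnl hU X)) := by
  rw [numDim, numSpan_eq]
  have hinj : Function.Injective
      (LinearMap.ltoFun ℚ (X ⟶ X) ℚ ℚ : Dual ℚ (X ⟶ X) →ₗ[ℚ] ((X ⟶ X) → ℚ)) :=
    fun f g h => LinearMap.ext fun x => congrFun h x
  exact ((Submodule.equivMapOfInjective _ hinj _).finrank_eq).symm

include R in
/-- The functionals form a finite-dimensional space. -/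
lemma fin_range (hU : UnitQ C) (X : C) : Module.Finite ℚ (LinearMap.range (fnl hU X)) := by
  have hK := R_charZero R
  have hfg : (Submodule.span K (Set.range fun f : X ⟶ X => op R f)).FG := by
    have : Module.Finite K (S R X) := inferInstance
    exact Module.Finite.iff_fg.1 this
  obtain ⟨t, ht, hspan⟩ := Submodule.fg_span_iff_fg_span_finset_subset _ |>.1 hfg
  choose! γ hγ using fun x (hx : x ∈ Set.range fun f : X ⟶ X => op R f) => hx
  let ev : LinearMap.range (fnl hU X) →ₗ[ℚ] (t → ℚ) :=
    { toFun := fun φ x => (φ : Dual ℚ (X ⟶ X)) (γ x)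
      map_add' := fun _ _ => rfl
      map_smul' := fun _ _ => rfl }
  refine Module.Finite.of_injective ev ?_
  rw [injective_iff_map_eq_zero]
  rintro ⟨_, f, rfl⟩ h
  apply Subtype.ext
  apply LinearMap.ext
  intro g
  change ctr hU (f ≫ g) = 0
  have h1 : ∀ y ∈ S R X, st R X (y * op R f) = 0 := by
    intro y hy
    rw [S, hspan] at hy
    induction hy using Submodule.span_induction with
    | mem y hy =>
      have h2 : ctr hU (f ≫ γ y) = 0 := congrFun h ⟨y, hy⟩
      have h3 : op R (γ y) = y := hγ y (ht hy)
      rw [← h3, ← R484.NC.op_comp R, st_op, ← ctr_eq R hU, h2, Rat.cast_zero]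
    | zero => rw [zero_mul, st_zero]
    | add a b _ _ ha hb => rw [add_mul, st_add, ha, hb, add_zero]
    | smul s a _ ha => rw [smul_mul_assoc, st_smul, ha, mul_zero]
  have h2 := h1 _ (op_S g)
  rw [← R484.NC.op_comp R, st_op, ← ctr_eq R hU] at h2
  exact_mod_cast h2

include R in
lemma fin_map (hU : UnitQ C) (T : Set (X ⟶ X)) :
    Module.Finite ℚ ((Submodule.span ℚ T).map (fnl hU X)) := by
  have := fin_range (R := R) hU X
  exact Submodule.finiteDimensional_of_le (LinearMap.map_le_range)

include R in
lemma fin_numSpan (hU : UnitQ C) (T : Set (X ⟶ X)) : Module.Finite ℚ (numSpan hU T) := by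
  have := fin_map (R := R) hU T
  rw [numSpan_eq]
  infer_instance

/-- An upper bound for the dimension. -/
lemma numDim_le (hU : UnitQ C) (T : Set (X ⟶ X)) (P : Module.End K (R.H.obj X))
    (hT : ∀ x ∈ T, NT R X ((1 - P) * op R x)) : numDim hU T ≤ rr R X P := by
  have hK := R_charZero R
  have hfin := fin_map (R := R) hU T
  rw [numDim_eq]
  set m := finrank ℚ ((Submodule.span ℚ T).map (fnl hU X)) with hm
  let b := Module.finBasis ℚ ((Submodule.span ℚ T).map (fnl hU X))
  have hb : LinearIndependent ℚ (fun i => (b i : Dual ℚ (X ⟶ X))) :=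
    b.linearIndependent.map' (Submodule.subtype _) (Submodule.ker_subtype _)
  obtain ⟨y, hy⟩ := exists_dual_vec hb
  have hx : ∀ i, ∃ f ∈ Submodule.span ℚ T, fnl hU X f = b i := fun i => (b i).2
  choose x hx1 hx2 using hx
  have hTs : ∀ f ∈ Submodule.span ℚ T, NT R X ((1 - P) * op R f) := by
    intro f hf
    induction hf using Submodule.span_induction with
    | mem f hf => exact hT f hf
    | zero =>
      have h0 : op R (0 : X ⟶ X) = 0 := by rw [op, Functor.map_zero]; rfl
      rw [h0, mul_zero]; exact NT.zero
    | add f g _ _ hf hg => rw [R484.NC.op_add R, mul_add]; exact hf.add hg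
    | smul q f _ hf => rw [R484.NC.op_smul R, mul_smul_comm]; exact hf.smul _
  have h1 := card_le_rk (β := be R X P 1) (fun i => (⟨op R (x i), op_S _⟩ : S R X))
    (fun i => (⟨op R (y i), op_S _⟩ : S R X)) (fun i j => by
      rw [be_eq]
      have h2 : st R X ((1 - P) * op R (x i) * op R (y j)) = 0 := hTs _ (hx1 i) _ (op_S _)
      rw [sub_mul, one_mul, sub_mul, st_sub, sub_eq_zero] at h2
      have h3 : ctr hU (x i ≫ y j) = if i = j then 1 else 0 := by
        rw [← fnl_apply, hx2]
        exact hy i j
      change st R X (P * (op R (x i) * (1 * op R (y j)))) = _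
      rw [one_mul, ← mul_assoc, ← h2, ← R484.NC.op_comp R, st_op, ← ctr_eq R hU,
        ctr_comm R hU, h3]
      split_ifs <;> simp)
  rwa [Fintype.card_fin] at h1

/-- A lower bound for the dimension. -/
lemma le_numDim (hU : UnitQ C) (X : C) : en R X 1 ≤ numDim hU (Set.univ : Set (X ⟶ X)) := by
  have hK := R_charZero R
  have hfin := fin_map (R := R) hU (Set.univ : Set (X ⟶ X))
  rw [numDim_eq]
  set W := (Submodule.span ℚ (Set.univ : Set (X ⟶ X))).map (fnl hU X) with hW
  let b := Module.finBasis ℚ W
  obtain ⟨x, y, hx, hy, hxy⟩ := exists_en R X 1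
  -- the functions
  let Φ : Module.End K (R.H.obj X) →ₗ[K] ((X ⟶ X) → K) :=
    { toFun := fun a g => st R X (a * op R g)
      map_add' := fun a a' => by funext g; rw [add_mul, st_add]; rfl
      map_smul' := fun t a => by funext g; rw [smul_mul_assoc, st_smul]; rfl }
  let β : Fin (finrank ℚ W) → ((X ⟶ X) → K) := fun i g => (((b i : Dual ℚ (X ⟶ X)) g : ℚ) : K)
  have h1 : ∀ a ∈ S R X, Φ a ∈ Submodule.span K (Set.range β) := by
    intro a ha
    refine S_ind (p := fun a => Φ a ∈ Submodule.span K (Set.range β)) ?_ ?_ ?_ ?_ ha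
    · intro f
      have hf : fnl hU X f ∈ W := ⟨f, Submodule.subset_span (Set.mem_univ f), rfl⟩
      have h2 := b.sum_repr ⟨_, hf⟩
      have h3 : Φ (op R f) = ∑ i, ((b.repr ⟨_, hf⟩ i : ℚ) : K) • β i := by
        funext g
        have h4 := congrArg (fun w : W => (w : Dual ℚ (X ⟶ X)) g) h2
        simp only [Submodule.coe_sum, Submodule.coe_smul, LinearMap.sum_apply,
          LinearMap.smul_apply, smul_eq_mul] at h4
        rw [Finset.sum_apply]
        simp only [Pi.smul_apply, smul_eq_mul]
        change st R X (op R f * op R g) = ∑ i, ((b.repr ⟨_, hf⟩ i : ℚ) : K) *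
          (((b i : Dual ℚ (X ⟶ X)) g : ℚ) : K)
        rw [← R484.NC.op_comp R, st_op, ← ctr_eq R hU, ctr_comm R hU]
        change ((fnl hU X f g : ℚ) : K) = _
        rw [← h4]
        push_cast
        rfl
      rw [h3]
      exact Submodule.sum_mem _ fun i _ => Submodule.smul_mem _ _ (Submodule.subset_span ⟨i, rfl⟩)
    · rw [map_zero]; exact Submodule.zero_mem _
    · intro a a' h h'; rw [map_add]; exact Submodule.add_mem _ h h'
    · intro t a h; rw [map_smul]; exact Submodule.smul_mem _ _ h
  have h2 : LinearIndependent K (fun i => Φ (x i)) := by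
    rw [Fintype.linearIndependent_iff]
    intro c hc j
    have h3 : ∀ z ∈ S R X, st R X ((∑ i, c i • x i) * z) = 0 := by
      intro z hz
      refine S_ind (p := fun z => st R X ((∑ i, c i • x i) * z) = 0) ?_ ?_ ?_ ?_ hz
      · intro g
        have h4 : Φ (∑ i, c i • x i) = 0 := by
          rw [map_sum, ← hc]
          refine Finset.sum_congr rfl fun i _ => ?_
          rw [map_smul]
        exact congrFun h4 g
      · rw [mul_zero, st_zero]
      · intro a b ha hb; rw [mul_add, st_add, ha, hb, add_zero]
      · intro t a ha; rw [mul_smul_comm, st_smul, ha, mul_zero]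
    have h4 := h3 _ (hy j)
    rw [Finset.sum_mul] at h4
    have h5 : st R X (∑ i, c i • x i * y j) = ∑ i, c i * st R X (x i * y j) := by
      have h6 : ∀ s : Finset (Fin (en R X 1)), st R X (∑ i ∈ s, c i • x i * y j) =
          ∑ i ∈ s, c i * st R X (x i * y j) := by
        intro s
        classical
        induction s using Finset.induction_on with
        | empty => rw [Finset.sum_empty, Finset.sum_empty, st_zero]
        | insert i s hi ih =>
          rw [Finset.sum_insert hi, Finset.sum_insert hi, st_add, ih, smul_mul_assoc, st_smul]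
      exact h6 Finset.univ
    rw [h5] at h4
    have h6 : ∀ i, st R X (x i * y j) = if i = j then 1 else 0 := by
      intro i
      have := hxy i j
      rwa [one_mul, one_mul] at this
    simp only [h6, mul_ite, mul_one, mul_zero, Finset.sum_ite_eq', Finset.mem_univ,
      if_true] at h4
    exact h4
  have h3 : LinearIndependent K (fun i => (⟨Φ (x i), h1 _ (hx i)⟩ :
      Submodule.span K (Set.range β))) := by
    apply LinearIndependent.of_comp (Submodule.subtype _)
    exact h2
  have hfin' : Module.Finite K (Submodule.span K (Set.range β)) :=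
    FiniteDimensional.span_of_finite K (Set.finite_range β)
  have h4 := h3.fintype_card_le_finrank
  rw [Fintype.card_fin] at h4
  refine h4.trans ?_
  have h5 := finrank_range_le_card (R := K) β
  rw [Fintype.card_fin] at h5
  exact h5

end Pool.Agent.E8helper73.ZO
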