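import Pool.Agent.E8helper73.ZO.Op

/-!
# Dimensions of spaces of endomorphisms modulo numerical equivalence

(The pattern of the proofs is that of `Pool.Agent.E8helper32.Inf.Hm`.)
-/

set_option autoImplicit false
set_option linter.unusedSectionVars false

open CategoryTheory Limits MonoidalCategory Module
open Pool.Agent.Y112.SR Pool.Agent.Y112.KD Pool.Agent.Y112.SC Pool.Agent.R484.NC
open Pool.Agent.Y133.Half

namespace Pool.Agent.E8helper73.ZO

universe v u w

section rk

variable {K A B : Type*} [Field K] [AddCommGroup A] [Module K A] [AddCommGroup B] [Module K B]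
  [FiniteDimensional K A] [FiniteDimensional K B]

lemma card_le_rk {ι : Type*} [Fintype ι] [DecidableEq ι] {β : A →ₗ[K] B →ₗ[K] K} (x : ι → A)
    (y : ι → B) (h : ∀ i j, β (x i) (y j) = if i = j then 1 else 0) : Fintype.card ι ≤ rk β := by
  have h1 : LinearIndependent K (fun i => β (x i)) := by
    rw [Fintype.linearIndependent_iff]
    intro c hc j
    have h3 : (∑ i, c i • β (x i)) (y j) = 0 := by rw [hc]; rfl
    rw [LinearMap.sum_apply] at h3
    simp only [LinearMap.smul_apply, smul_eq_mul, h, mul_ite, mul_one, mul_zero,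
      Finset.sum_ite_eq', Finset.mem_univ, if_true] at h3
    exact h3
  have h2 : Submodule.span K (Set.range fun i => β (x i)) ≤ LinearMap.range β := by
    rw [Submodule.span_le]
    rintro _ ⟨i, rfl⟩
    exact ⟨x i, rfl⟩
  rw [← finrank_span_eq_card h1, rk]
  exact Submodule.finrank_mono h2

lemma exists_dual (β : A →ₗ[K] B →ₗ[K] K) : ∃ (x : Fin (rk β) → A) (y : Fin (rk β) → B),
    ∀ i j, β (x i) (y j) = if i = j then 1 else 0 := by
  obtain ⟨v, hv, hspan⟩ := exists_fam (V := Dual K B) (LinearMap.range β)
  have hvr : ∀ i, ∃ x, β x = v i := fun i => by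
    have : v i ∈ LinearMap.range β := by
      rw [← hspan]; exact Submodule.subset_span ⟨i, rfl⟩
    exact this
  choose x hx using hvr
  obtain ⟨y, hy⟩ := exists_dual_vectors hv
  exact ⟨x, y, fun i j => (congrArg (fun f : Dual K B => f (y j)) (hx i)).trans (hy i j)⟩

end rk

variable {C : Type u} [Category.{v} C] [Preadditive C] [Linear ℚ C] [MonoidalCategory C]
  [MonoidalPreadditive C] [MonoidalLinear ℚ C] [SymmetricCategory C]
  [RightRigidCategory C] {K : Type w} [Field K] {R : SuperRealisation C K}

instance fin1 (X : C) : FiniteDimensional K (R.H.obj X) := R.finite X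

instance fin2 (X : C) : FiniteDimensional K (Module.End K (R.H.obj X)) := by
  have := R.finite X
  change Module.Finite K (R.H.obj X →ₗ[K] R.H.obj X)
  infer_instance

instance fin3 (X : C) : FiniteDimensional K (S R X) := by
  have := fin2 (R := R) X
  exact FiniteDimensional.finiteDimensional_submodule _

/-- The algebra of the operators. -/
noncomputable def ca (R : SuperRealisation C K) (X : C) :
    Cat K (fun _ : Unit => (R.H.obj X : Type w)) where
  p _ := pr R X
  p_sq _ := pr_sq
  S _ _ := S R X
  one _ := one_S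
  mul ha hb := mul_S ha hb
  comm ha := pr_S ha

/-- The form. -/
noncomputable def be (R : SuperRealisation C K) (X : C) (e e' : Module.End K (R.H.obj X)) :
    S R X →ₗ[K] S R X →ₗ[K] K := (ca R X).B () () e e'

/-- The dimension of the space of the endomorphisms of `(X, e)` modulo numerical equivalence. -/
noncomputable def en (R : SuperRealisation C K) (X : C) (e : Module.End K (R.H.obj X)) : ℕ :=
  rk (be R X e e)

/-- The dimension of the space of the morphisms from `X` to `(X, e)` modulo numerical
equivalence. -/
noncomputable def rr (R : SuperRealisation C K) (X : C) (e : Module.End K (R.H.obj X)) : ℕ :=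
  rk (be R X e 1)

variable {X Y : C}

lemma be_eq (e e' : Module.End K (R.H.obj X)) (x y : S R X) :
    be R X e e' x y = st R X (e * ((x : Module.End K (R.H.obj X)) * (e' * y))) := rfl

/-- The Cauchy-Schwarz inequality. -/
lemma rr_sq {e : Module.End K (R.H.obj X)} (he : e ∈ S R X) (hee : e * e = e) :
    rr R X e ^ 2 ≤ en R X e * en R X 1 := by
  have hK := R_charZero R
  exact (ca R X).rk_B_sq_le' (i := ()) (j := ()) (g := e) he hee (g' := 1) one_S (one_mul 1)

lemma le_en {ι : Type} [Fintype ι] [DecidableEq ι] {e : Module.End K (R.H.obj X)}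
    (x y : ι → Module.End K (R.H.obj X)) (hx : ∀ i, x i ∈ S R X) (hy : ∀ i, y i ∈ S R X)
    (h : ∀ i j, st R X (e * (x i * (e * y j))) = if i = j then 1 else 0) :
    Fintype.card ι ≤ en R X e :=
  card_le_rk (β := be R X e e) (fun i => ⟨x i, hx i⟩) (fun i => ⟨y i, hy i⟩) h

lemma exists_en (R : SuperRealisation C K) (X : C) (e : Module.End K (R.H.obj X)) :
    ∃ x y : Fin (en R X e) → Module.End K (R.H.obj X), (∀ i, x i ∈ S R X) ∧
      (∀ i, y i ∈ S R X) ∧ ∀ i j, st R X (e * (x i * (e * y j))) = if i = j then 1 else 0 := by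
  obtain ⟨x, y, h⟩ := exists_dual (be R X e e)
  exact ⟨fun i => (x i : Module.End K (R.H.obj X)), fun i => (y i : Module.End K (R.H.obj X)),
    fun i => (x i).2, fun i => (y i).2, h⟩

/-- Orthogonal idempotents. -/
lemma en_add {e f : Module.End K (R.H.obj X)} (he : e ∈ S R X) (hf : f ∈ S R X)
    (hee : e * e = e) (hff : f * f = f) (hef : e * f = 0) (hfe : f * e = 0) :
    en R X e + en R X f ≤ en R X (e + f) := by
  obtain ⟨x, y, hx, hy, h⟩ := exists_en R X e
  obtain ⟨x', y', hx', hy', h'⟩ := exists_en R X f
  have h1 := le_en (R := R) (X := X) (e := e + f) (ι := Fin (en R X e) ⊕ Fin (en R X f))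
    (Sum.elim (fun i => e * x i * e) (fun i => f * x' i * f))
    (Sum.elim (fun i => e * y i * e) (fun i => f * y' i * f)) ?_ ?_ ?_
  · rwa [Fintype.card_sum, Fintype.card_fin, Fintype.card_fin] at h1
  · rintro (i | i)
    · exact mul_S (mul_S he (hx i)) he
    · exact mul_S (mul_S hf (hx' i)) hf
  · rintro (i | i)
    · exact mul_S (mul_S he (hy i)) he
    · exact mul_S (mul_S hf (hy' i)) hf
  · have a1 : (e + f) * e = e := by rw [add_mul, hee, hfe, add_zero]
    have a2 : (e + f) * f = f := by rw [add_mul, hff, hef, zero_add]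
    rintro (i | i) (j | j)
    · simp only [Sum.elim_inl, Sum.inl.injEq]
      rw [← h i j]
      have : (e + f) * (e * x i * e * ((e + f) * (e * y j * e))) = (e * x i * (e * y j)) * e := by
        calc (e + f) * (e * x i * e * ((e + f) * (e * y j * e)))
            = ((e + f) * e) * x i * e * (((e + f) * e) * y j * e) := by simp only [mul_assoc]
          _ = e * x i * (e * e) * y j * e := by rw [a1]; simp only [mul_assoc]
          _ = _ := by rw [hee]; simp only [mul_assoc]
      rw [this, st_comm (pr_S he)]
      congr 1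
      simp only [← mul_assoc]
      rw [hee]
    · simp only [Sum.elim_inl, Sum.elim_inr, reduceCtorEq, if_false]
      have : (e + f) * (e * x i * e * ((e + f) * (f * y' j * f))) = 0 := by
        calc (e + f) * (e * x i * e * ((e + f) * (f * y' j * f)))
            = (e + f) * (e * x i * (e * (((e + f) * f) * (y' j * f)))) := by
              simp only [mul_assoc]
          _ = (e + f) * (e * x i * ((e * f) * (y' j * f))) := by rw [a2]; simp only [mul_assoc]
          _ = 0 := by rw [hef]; simp
      rw [this, st_zero]
    · simp only [Sum.elim_inl, Sum.elim_inr, reduceCtorEq, if_false]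
      have : (e + f) * (f * x' i * f * ((e + f) * (e * y j * e))) = 0 := by
        calc (e + f) * (f * x' i * f * ((e + f) * (e * y j * e)))
            = (e + f) * (f * x' i * (f * (((e + f) * e) * (y j * e)))) := by
              simp only [mul_assoc]
          _ = (e + f) * (f * x' i * ((f * e) * (y j * e))) := by rw [a1]; simp only [mul_assoc]
          _ = 0 := by rw [hfe]; simp
      rw [this, st_zero]
    · simp only [Sum.elim_inr, Sum.inr.injEq]
      rw [← h' i j]
      have : (e + f) * (f * x' i * f * ((e + f) * (f * y' j * f))) =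
          (f * x' i * (f * y' j)) * f := by
        calc (e + f) * (f * x' i * f * ((e + f) * (f * y' j * f)))
            = ((e + f) * f) * x' i * f * (((e + f) * f) * y' j * f) := by simp only [mul_assoc]
          _ = f * x' i * (f * f) * y' j * f := by rw [a2]; simp only [mul_assoc]
          _ = _ := by rw [hff]; simp only [mul_assoc]
      rw [this, st_comm (pr_S hf)]
      congr 1
      simp only [← mul_assoc]
      rw [hff]

/-- Products. -/
lemma en_mul (e : Module.End K (R.H.obj X)) (f : Module.End K (R.H.obj Y)) :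
    en R X e * en R Y f ≤ en R (X ⊗ Y) (ext R e f) := by
  obtain ⟨x, y, hx, hy, h⟩ := exists_en R X e
  obtain ⟨x', y', hx', hy', h'⟩ := exists_en R Y f
  have h1 := le_en (R := R) (X := X ⊗ Y) (e := ext R e f)
    (ι := Fin (en R X e) × Fin (en R Y f)) (fun i => ext R (x i.1) (x' i.2))
    (fun i => ext R (y i.1) (y' i.2)) (fun i => ext_S (hx _) (hx' _))
    (fun i => ext_S (hy _) (hy' _)) ?_
  · rwa [Fintype.card_prod, Fintype.card_fin, Fintype.card_fin] at h1
  · rintro ⟨i, i'⟩ ⟨j, j'⟩
    simp only [ext_mul, st_ext, h, h', Prod.mk.injEq]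
    by_cases h1 : i = j <;> by_cases h2 : i' = j' <;> simp [h1, h2]

/-- Isomorphisms. -/
lemma en_iso {θ : X ≅ Y} {e : Module.End K (R.H.obj X)} {e' : Module.End K (R.H.obj Y)}
    (h : Compat R θ e e') : en R X e ≤ en R Y e' := by
  obtain ⟨x, y, hx, hy, hxy⟩ := exists_en R X e
  have h1 := le_en (R := R) (X := Y) (e := e') (ι := Fin (en R X e))
    (fun i => cj θ (x i)) (fun i => cj θ (y i)) (fun i => cj_S θ (hx i)) (fun i => cj_S θ (hy i)) ?_
  · rwa [Fintype.card_fin] at h1
  · intro i j
    rw [← hxy i j, ← cj_compat h, ← cj_mul, ← cj_mul, ← cj_mul, st_cj]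

lemma en_iso_eq {θ : X ≅ Y} {e : Module.End K (R.H.obj X)} {e' : Module.End K (R.H.obj Y)}
    (h : Compat R θ e e') : en R X e = en R Y e' := le_antisymm (en_iso h) (en_iso h.symm)

lemma en_pos {e x : Module.End K (R.H.obj X)} (hee : e * e = e)
    (hx : x ∈ S R X) (h : st R X (e * x) ≠ 0) : 1 ≤ en R X e := by
  have h1 := le_en (R := R) (X := X) (e := e) (ι := Unit) (fun _ => 1)
    (fun _ => (st R X (e * x))⁻¹ • x) (fun _ => one_S) (fun _ => Submodule.smul_mem _ _ hx) ?_
  · simpa using h1
  · intro i j
    rw [one_mul, ← mul_assoc, hee, mul_smul_comm, st_smul]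
    simp only [if_true]
    exact inv_mul_cancel₀ h

/-- The rank is at most the square of the rank of the idempotent. -/
lemma en_le_sq (e : Module.End K (R.H.obj X)) :
    en R X e ≤ finrank K (LinearMap.range e) ^ 2 := by
  set W := LinearMap.range e with hW
  -- the form factors through `W → W`
  let F : S R X →ₗ[K] (W →ₗ[K] W) :=
    { toFun := fun u => (e.rangeRestrict ∘ₗ (u : Module.End K (R.H.obj X))) ∘ₗ W.subtype
      map_add' := fun u u' => by
        rw [Submodule.coe_add, LinearMap.comp_add, LinearMap.add_comp]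
      map_smul' := fun t u => by
        rw [Submodule.coe_smul, LinearMap.comp_smul, LinearMap.smul_comp]; rfl }
  let β : S R X →ₗ[K] S R X →ₗ[K] K := be R X e e
  have hβ : ∀ u v : S R X, β u v = st R X (e * ((u : Module.End K (R.H.obj X)) * (e * v))) :=
    fun _ _ => rfl
  have hker : LinearMap.ker F ≤ LinearMap.ker β := by
    intro u hu
    rw [LinearMap.mem_ker] at hu ⊢
    have h1 : e * ((u : Module.End K (R.H.obj X)) * e) = 0 := by
      apply LinearMap.ext
      intro x
      have h2 := LinearMap.congr_fun hu ⟨e x, x, rfl⟩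
      have h3 := congrArg Subtype.val h2
      exact h3
    apply LinearMap.ext
    intro v
    rw [hβ, ← mul_assoc (u : Module.End K (R.H.obj X)), ← mul_assoc, h1, zero_mul, st_zero]
    rfl
  have h1 := LinearMap.finrank_range_add_finrank_ker F
  have h2 := LinearMap.finrank_range_add_finrank_ker β
  have h3 := Submodule.finrank_mono hker
  have h4 := Submodule.finrank_le (LinearMap.range F)
  rw [Module.finrank_linearMap] at h4
  have h6 : en R X e = finrank K (LinearMap.range β) := rfl
  rw [h6, sq]
  omega

end Pool.Agent.E8helper73.ZO
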