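import Mathlib

/-!
# Supermultiplicative sequences

(The proofs are those of `Pool.Agent.E8helper32.Inf.Rate`.)
-/

set_option autoImplicit false

namespace Pool.Agent.E8helper73.ZO

lemma exists_rate {g : ℕ → ℕ} (h0 : 1 ≤ g 0) (hg : ∀ k l, g k * g l ≤ g (l + k + 1)) {M : ℝ}
    (hM0 : 0 ≤ M) (hM : ∀ k, (g k : ℝ) ≤ M ^ (k + 1)) :
    ∃ c : ℝ, 1 ≤ c ∧ c ≤ M ∧ (∀ k, (g k : ℝ) ≤ c ^ (k + 1)) ∧
      ∀ c', 0 ≤ c' → c' < c → ∃ κ : ℝ, 0 < κ ∧ ∀ k, κ * c' ^ (k + 1) ≤ g k := by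
  have hpos : ∀ k, 1 ≤ g k := by
    intro k
    induction k with
    | zero => exact h0
    | succ k ih =>
      have h1 := hg 0 k
      have h2 : 1 * 1 ≤ g 0 * g k := Nat.mul_le_mul h0 ih
      have h3 : k + 0 + 1 = k + 1 := rfl
      rw [h3] at h1
      omega
  set A : Set ℝ := {x | 0 ≤ x ∧ ∃ k, x ^ (k + 1) ≤ g k} with hA
  have hbd' : ∀ x ∈ A, x ≤ M := by
    rintro x ⟨hx, k, hk⟩
    exact le_of_pow_le_pow_left₀ (Nat.succ_ne_zero k) hM0 (hk.trans (hM k))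
  have hbd : BddAbove A := ⟨M, hbd'⟩
  have h1A : (1 : ℝ) ∈ A := ⟨zero_le_one, 0, by rw [one_pow]; exact_mod_cast h0⟩
  have hne : A.Nonempty := ⟨1, h1A⟩
  refine ⟨sSup A, le_csSup hbd h1A, csSup_le hne hbd', fun k => ?_, fun c' hc' hlt => ?_⟩
  · have h2 : (0 : ℝ) ≤ g k := Nat.cast_nonneg _
    have h3 : ((g k : ℝ) ^ ((1 : ℝ) / ((k + 1 : ℕ) : ℝ))) ^ (k + 1) = g k := by
      rw [one_div]
      exact Real.rpow_inv_natCast_pow h2 (Nat.succ_ne_zero k)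
    have h4 : (g k : ℝ) ^ ((1 : ℝ) / ((k + 1 : ℕ) : ℝ)) ∈ A :=
      ⟨Real.rpow_nonneg h2 _, k, h3.le⟩
    calc (g k : ℝ) = ((g k : ℝ) ^ ((1 : ℝ) / ((k + 1 : ℕ) : ℝ))) ^ (k + 1) := h3.symm
      _ ≤ _ := pow_le_pow_left₀ (Real.rpow_nonneg h2 _) (le_csSup hbd h4) _
  · obtain ⟨x, ⟨hx0, k₀, hk₀⟩, hx⟩ := exists_lt_of_lt_csSup hne hlt
    rcases le_or_gt c' 1 with h1 | h1
    · refine ⟨1, one_pos, fun k => ?_⟩
      rw [one_mul]
      calc c' ^ (k + 1) ≤ 1 := pow_le_one₀ hc' h1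
        _ ≤ g k := by exact_mod_cast hpos k
    · have hc1 : 0 < c' := by linarith
      have key : ∀ q r, c' ^ ((k₀ + 1) * q) ≤ g ((k₀ + 1) * q + r) := by
        intro q
        induction q with
        | zero =>
          intro r
          rw [mul_zero, pow_zero]
          exact_mod_cast hpos _
        | succ q ih =>
          intro r
          have h2 := hg k₀ ((k₀ + 1) * q + r)
          have h3 : (k₀ + 1) * q + r + k₀ + 1 = (k₀ + 1) * (q + 1) + r := by ring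
          rw [h3] at h2
          have h4 : (g k₀ : ℝ) * g ((k₀ + 1) * q + r) ≤ g ((k₀ + 1) * (q + 1) + r) := by
            exact_mod_cast h2
          refine le_trans ?_ h4
          have h5 : c' ^ ((k₀ + 1) * (q + 1)) = c' ^ (k₀ + 1) * c' ^ ((k₀ + 1) * q) := by
            rw [← pow_add]; congr 1; ring
          rw [h5]
          have h6 : c' ^ (k₀ + 1) ≤ g k₀ := (pow_le_pow_left₀ hc' hx.le _).trans hk₀
          exact mul_le_mul h6 (ih r) (by positivity) (Nat.cast_nonneg _)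
      refine ⟨(c' ^ (k₀ + 1))⁻¹, by positivity, fun k => ?_⟩
      have h2 := key (k / (k₀ + 1)) (k % (k₀ + 1))
      rw [Nat.div_add_mod] at h2
      refine le_trans ?_ h2
      rw [inv_mul_le_iff₀ (by positivity), ← pow_add]
      apply pow_le_pow_right₀ h1.le
      have h3 := Nat.div_add_mod k (k₀ + 1)
      have h4 : k % (k₀ + 1) < k₀ + 1 := Nat.mod_lt k (Nat.succ_pos k₀)
      omega

lemma binom_growth {B : ℕ → ℕ → ℕ} {g : ℕ → ℕ} (hB : ∀ k n, B (k + 1) n + B k n ≤ B k (n + 1))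
    (hg : ∀ k, g k ≤ B k 0) {κ c : ℝ}
    (h : ∀ k, κ * c ^ (k + 1) ≤ g k) (n : ℕ) : ∀ k, κ * c ^ (k + 1) * (1 + c) ^ n ≤ B k n := by
  induction n with
  | zero =>
    intro k
    rw [pow_zero, mul_one]
    exact (h k).trans (by exact_mod_cast hg k)
  | succ n ih =>
    intro k
    have h1 := ih (k + 1)
    have h2 := ih k
    have h3 : (B (k + 1) n : ℝ) + B k n ≤ B k (n + 1) := by exact_mod_cast hB k n
    calc κ * c ^ (k + 1) * (1 + c) ^ (n + 1)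
        = κ * c ^ (k + 1 + 1) * (1 + c) ^ n + κ * c ^ (k + 1) * (1 + c) ^ n := by ring
      _ ≤ (B (k + 1) n : ℝ) + B k n := add_le_add h1 h2
      _ ≤ _ := h3

open Filter Topology in
/-- The comparison of the growths. -/
lemma compare {g t a : ℕ → ℕ} {B : ℕ → ℕ → ℕ} (h0 : 1 ≤ g 0)
    (hg : ∀ k l, g k * g l ≤ g (l + k + 1)) {M : ℝ} (hM0 : 0 ≤ M)
    (hM : ∀ k, (g k : ℝ) ≤ M ^ (k + 1))
    (hB : ∀ k n, B (k + 1) n + B k n ≤ B k (n + 1)) (hgB : ∀ k, g k ≤ B k 0)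
    (ht : ∀ n, B 0 n ≤ t (n + 1)) (ha : ∀ n, a (n + 1) ^ 2 ≤ g n * t (n + 1))
    {δ : ℝ} (hδ0 : 0 ≤ δ) (hδ : M / (1 + M) < δ ^ 2) :
    ∃ n₀ : ℕ, ∀ n ≥ n₀, (a n : ℝ) ≤ δ ^ n * t n := by
  obtain ⟨c, hc1, hcM, hup, hlow⟩ := exists_rate h0 hg hM0 hM
  have hc0 : 0 < c := by linarith
  have hδp : 0 < δ ^ 2 := lt_of_le_of_lt (by positivity) hδ
  have h1 : c / (1 + c) < δ ^ 2 := by
    refine lt_of_le_of_lt ?_ hδ
    rw [div_le_div_iff₀ (by linarith) (by linarith)]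
    nlinarith
  have h2 : c / δ ^ 2 - 1 < c := by
    rw [div_lt_iff₀ (by linarith)] at h1
    rw [sub_lt_iff_lt_add, div_lt_iff₀ hδp]
    linarith
  obtain ⟨c', hc'1, hc'2⟩ := exists_between (max_lt hc0 h2)
  have hc'0 : 0 < c' := lt_of_le_of_lt (le_max_left _ _) hc'1
  have h3 : c / δ ^ 2 < 1 + c' := by
    have := lt_of_le_of_lt (le_max_right _ _) hc'1
    linarith
  obtain ⟨κ, hκ, hκ'⟩ := hlow c' hc'0.le hc'2
  have hgr := binom_growth hB hgB hκ'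
  set q : ℝ := c / (1 + c') with hq
  have hq0 : 0 < q := by positivity
  have hqδ : q < δ ^ 2 := by
    rw [hq, div_lt_iff₀ (by linarith)]
    rw [div_lt_iff₀ hδp] at h3
    linarith
  -- eventually `C q ^ n ≤ δ ^ (2 n)`
  set D : ℝ := (1 + c') / (κ * c') with hD
  have hD0 : 0 < D := by positivity
  have h4 : Tendsto (fun n : ℕ => D * (q / δ ^ 2) ^ n) atTop (𝓝 (D * 0)) :=
    (tendsto_pow_atTop_nhds_zero_of_lt_one (by positivity) ((div_lt_one hδp).2 hqδ)).const_mul D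
  rw [mul_zero] at h4
  obtain ⟨n₁, hn₁⟩ := eventually_atTop.1 (h4.eventually (ge_mem_nhds one_pos))
  refine ⟨max 1 n₁, fun n hn => ?_⟩
  obtain ⟨m, rfl⟩ : ∃ m, n = m + 1 := ⟨n - 1, by
    have := (le_max_left 1 n₁).trans hn
    omega⟩
  have h5 := hn₁ (m + 1) ((le_max_right _ _).trans hn)
  have h6 : D * q ^ (m + 1) ≤ (δ ^ (m + 1)) ^ 2 := by
    rw [div_pow, ← mul_div_assoc, div_le_one (by positivity)] at h5
    calc D * q ^ (m + 1) ≤ (δ ^ 2) ^ (m + 1) := h5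
      _ = _ := by rw [← pow_mul, ← pow_mul, mul_comm]
  have h7 : κ * c' * (1 + c') ^ m ≤ t (m + 1) := by
    have := hgr m 0
    rw [zero_add, pow_one] at this
    exact this.trans (by exact_mod_cast ht m)
  have h8 : (a (m + 1) : ℝ) ^ 2 ≤ c ^ (m + 1) * t (m + 1) := by
    have h9 : (a (m + 1) : ℝ) ^ 2 ≤ g m * t (m + 1) := by exact_mod_cast ha m
    exact h9.trans (mul_le_mul_of_nonneg_right (hup m) (Nat.cast_nonneg _))
  have h9 : c ^ (m + 1) ≤ D * q ^ (m + 1) * t (m + 1) := by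
    calc c ^ (m + 1) = D * q ^ (m + 1) * (κ * c' * (1 + c') ^ m) := by
          rw [hD, hq, div_pow, pow_succ (1 + c')]
          field_simp
      _ ≤ _ := mul_le_mul_of_nonneg_left h7 (by positivity)
  have h10 : (a (m + 1) : ℝ) ^ 2 ≤ (δ ^ (m + 1) * t (m + 1)) ^ 2 := by
    calc (a (m + 1) : ℝ) ^ 2 ≤ c ^ (m + 1) * t (m + 1) := h8
      _ ≤ (D * q ^ (m + 1) * t (m + 1)) * t (m + 1) :=
          mul_le_mul_of_nonneg_right h9 (Nat.cast_nonneg _)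
      _ ≤ ((δ ^ (m + 1)) ^ 2 * t (m + 1)) * t (m + 1) := by gcongr
      _ = _ := by ring
  exact le_of_pow_le_pow_left₀ two_ne_zero (by positivity) h10

end Pool.Agent.E8helper73.ZO
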