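import Pool.Agent.E8helper73.ZO.Pos
import Pool.Agent.E8helper73.ZO.Rate

/-!
# Growth of the endomorphism spaces of the tensor powers
-/

set_option autoImplicit false
set_option linter.unusedSectionVars false
set_option backward.isDefEq.respectTransparency false
set_option backward.defeqAttrib.useBackward true

open CategoryTheory Limits MonoidalCategory Module
open Pool.Agent.Y112.SR Pool.Agent.Y112.KD Pool.Agent.Y112.SC Pool.Agent.R484.NC
open Pool.Agent.Y133.Half

namespace Pool.Agent.E8helper73.ZO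

universe v u w

open Functor.LaxMonoidal Functor.OplaxMonoidal

variable {C : Type u} [Category.{v} C] [Preadditive C] [Linear ℚ C] [MonoidalCategory C]
  [MonoidalPreadditive C] [MonoidalLinear ℚ C] [SymmetricCategory C]
  [RightRigidCategory C] {K : Type w} [Field K] {R : SuperRealisation C K}

variable {M X Y : C}

lemma bx_unitor {X : C} (a : R.H.obj X ⟶ R.H.obj X) :
    bx R a (𝟙 (R.H.obj (𝟙_ C))) ≫ R.H.map (ρ_ X).hom = R.H.map (ρ_ X).hom ≫ a := by
  rw [Functor.Monoidal.map_rightUnitor, bx]
  simp only [Category.assoc, Functor.Monoidal.μ_δ_assoc, tensorHom_id]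
  rw [← whisker_exchange_assoc, rightUnitor_naturality]

lemma Compat.unitor {X : C} (a : Module.End K (R.H.obj X)) :
    Compat R (ρ_ X) (ext R a (1 : Module.End K (R.H.obj (𝟙_ C)))) a :=
  congrArg ModuleCat.Hom.hom (bx_unitor (ModuleCat.ofHom a))

/-- `M ^ a ⊗ M ^ b ≅ M ^ (a + b)` -/
noncomputable def twAdd (M : C) (a : ℕ) : ∀ b : ℕ, tp M a ⊗ tp M b ≅ tp M (a + b)
  | 0 => ρ_ _
  | b + 1 => (α_ (tp M a) (tp M b) M).symm ≪≫ tensorIso (twAdd M a b) (Iso.refl M)

lemma compat_twAdd (e : Module.End K (R.H.obj M)) (a : ℕ) : ∀ b : ℕ,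
    Compat R (twAdd M a b) (ext R (pin R M e a) (pin R M e b)) (pin R M e (a + b))
  | 0 => Compat.unitor _
  | b + 1 => (Compat.assoc (pin R M e a) (pin R M e b) e).symm.trans
      ((compat_twAdd e a b).tensor (Compat.refl e))

/-- The exchange of the last two factors. -/
noncomputable def swp (X M : C) : (X ⊗ M) ⊗ M ≅ (X ⊗ M) ⊗ M :=
  α_ X M M ≪≫ tensorIso (Iso.refl X) (β_ M M) ≪≫ (α_ X M M).symm

lemma compat_swp (p : Module.End K (R.H.obj X)) {a b : Module.End K (R.H.obj M)}
    (ha : pr R M * a = a * pr R M) (hb : pr R M * b = b * pr R M) :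
    Compat R (swp X M) (ext R (ext R p a) b) (ext R (ext R p b) a) :=
  (Compat.assoc p a b).trans (((Compat.refl p).tensor (Compat.braid ha hb)).trans
    (Compat.assoc p b a).symm)

lemma ext_idem {a : Module.End K (R.H.obj X)} {b : Module.End K (R.H.obj Y)} (ha : a * a = a)
    (hb : b * b = b) : ext R a b * ext R a b = ext R a b := by rw [ext_mul, ha, hb]

lemma pin_idem {e : Module.End K (R.H.obj M)} (he : e * e = e) (n : ℕ) :
    pin R M e n * pin R M e n = pin R M e n := by
  induction n with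
  | zero => exact one_mul 1
  | succ n ih => exact ext_idem ih he

/-- `e` on the first `k + 1` factors, the identity on the following `n` factors -/
noncomputable def PP (R : SuperRealisation C K) (M : C) (e : Module.End K (R.H.obj M)) (k : ℕ) :
    ∀ n : ℕ, Module.End K (R.H.obj (tp M (k + 1 + n)))
  | 0 => pin R M e (k + 1)
  | n + 1 => ext R (PP R M e k n) (1 : Module.End K (R.H.obj M))

lemma PP_S {e : Module.End K (R.H.obj M)} (he : e ∈ S R M) (k n : ℕ) :
    PP R M e k n ∈ S R (tp M (k + 1 + n)) := by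
  induction n with
  | zero => exact pin_S he _
  | succ n ih => exact ext_S ih one_S

lemma PP_idem {e : Module.End K (R.H.obj M)} (he : e * e = e) (k n : ℕ) :
    PP R M e k n * PP R M e k n = PP R M e k n := by
  induction n with
  | zero => exact pin_idem he _
  | succ n ih => exact ext_idem ih (one_mul 1)

/-- moving a factor -/
lemma exists_move {e : Module.End K (R.H.obj M)} (he : e ∈ S R M) (k : ℕ) : ∀ n : ℕ,
    ∃ θ : tp M (k + 1 + n) ⊗ M ≅ tp M (k + 1 + 1 + n),
      Compat R θ (ext R (PP R M e k n) e) (PP R M e (k + 1) n)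
  | 0 => ⟨Iso.refl _, Compat.refl _⟩
  | n + 1 => by
    obtain ⟨θ, hθ⟩ := exists_move he k n
    exact ⟨swp (tp M (k + 1 + n)) M ≪≫ tensorIso θ (Iso.refl M),
      (compat_swp (PP R M e k n) (a := 1) (b := e) (by rw [mul_one, one_mul]) (pr_S he)).trans
        (hθ.tensor (Compat.refl 1))⟩

lemma en_mono {X : C} {p : Module.End K (R.H.obj X)} (hp : p ∈ S R X) (hpp : p * p = p) :
    en R X p ≤ en R X 1 := by
  have h1 : (1 - p) * (1 - p) = 1 - p := by rw [mul_sub, sub_mul, sub_mul, hpp]; simp
  have h2 := en_add (R := R) (X := X) (e := p) (f := 1 - p) hp (Submodule.sub_mem _ one_S hp) hpp h1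
    (by rw [mul_sub, mul_one, hpp, sub_self]) (by rw [sub_mul, one_mul, hpp, sub_self])
  rw [add_sub_cancel] at h2
  omega

/-- The recursion for the growth. -/
lemma PP_rec {e : Module.End K (R.H.obj M)} (he : e ∈ S R M) (hee : e * e = e)
    (hf : 1 ≤ en R M (1 - e)) (k n : ℕ) :
    en R (tp M (k + 1 + 1 + n)) (PP R M e (k + 1) n) + en R (tp M (k + 1 + n)) (PP R M e k n) ≤
      en R (tp M (k + 1 + (n + 1))) (PP R M e k (n + 1)) := by
  obtain ⟨θ, hθ⟩ := exists_move he k n
  rw [← en_iso_eq hθ]
  set P := PP R M e k n with hP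
  have hPS : P ∈ S R _ := PP_S he k n
  have hPP : P * P = P := PP_idem hee k n
  have hfS : (1 - e) ∈ S R M := Submodule.sub_mem _ one_S he
  have hff : (1 - e) * (1 - e) = 1 - e := by rw [mul_sub, sub_mul, sub_mul, hee]; simp
  have hef : e * (1 - e) = 0 := by rw [mul_sub, mul_one, hee, sub_self]
  have hfe : (1 - e) * e = 0 := by rw [sub_mul, one_mul, hee, sub_self]
  have h1 := en_mul (R := R) P (1 - e)
  have h2 := en_add (R := R) (X := tp M (k + 1 + n) ⊗ M) (e := ext R P e) (f := ext R P (1 - e))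
    (ext_S hPS he) (ext_S hPS hfS) (ext_idem hPP hee) (ext_idem hPP hff)
    (by rw [ext_mul, hef, ext_zero_right]) (by rw [ext_mul, hfe, ext_zero_right])
  rw [← ext_add_right, add_sub_cancel] at h2
  have h3 : en R (tp M (k + 1 + n)) P ≤ en R (tp M (k + 1 + n) ⊗ M) (ext R P (1 - e)) := by
    refine le_trans ?_ h1
    exact Nat.le_mul_of_pos_right _ hf
  exact (Nat.add_le_add_left h3 _).trans h2

/-- The trace of a tensor product. -/
lemma trace_ext (a : Module.End K (R.H.obj X)) (b : Module.End K (R.H.obj Y)) :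
    LinearMap.trace K (R.H.obj (X ⊗ Y)) (ext R a b) =
      LinearMap.trace K (R.H.obj X) a * LinearMap.trace K (R.H.obj Y) b := by
  have h : ∀ (Z : C) (x : Module.End K (R.H.obj Z)),
      LinearMap.trace K (R.H.obj Z) x = st R Z (pr R Z * x) := by
    intro Z x
    rw [st, ← mul_assoc, pr_sq, one_mul]
  rw [h, h, h, ← st_ext, ← ext_pr, ext_mul]

lemma rank_pin {e : Module.End K (R.H.obj M)} (hee : e * e = e) (n : ℕ) :
    finrank K (LinearMap.range (pin R M e (n + 1))) = finrank K (LinearMap.range e) ^ (n + 1) := by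
  have hK := R_charZero R
  have h1 : ∀ n : ℕ, LinearMap.trace K (R.H.obj (tp M (n + 1))) (pin R M e (n + 1)) =
      (finrank K (LinearMap.range e) : K) ^ (n + 1) := by
    intro n
    induction n with
    | zero =>
      have h2 : pin R M e (0 + 1) = ext R (1 : Module.End K (R.H.obj (tp M 0))) e := rfl
      rw [h2, trace_ext, trace_idem hee, zero_add, pow_one]
      have h3 : LinearMap.trace K (R.H.obj (tp M 0)) 1 = 1 := by
        rw [LinearMap.trace_one]
        have h4 : finrank K (R.H.obj (𝟙_ C)) = 1 := by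
          have h5 : R.H.obj (𝟙_ C) ≅ 𝟙_ (ModuleCat.{w} K) := (Functor.Monoidal.εIso R.H).symm
          have h6 := h5.toLinearEquiv.finrank_eq
          rw [h6]
          exact Module.finrank_self K
        rw [h4, Nat.cast_one]
      rw [h3, one_mul]
    | succ n ih =>
      have h2 : pin R M e (n + 1 + 1) = ext R (pin R M e (n + 1)) e := rfl
      rw [h2, trace_ext, ih, trace_idem hee, ← pow_succ]
  have h2 := h1 n
  rw [trace_idem (pin_idem hee (n + 1))] at h2
  exact_mod_cast h2

end Pool.Agent.E8helper73.ZO
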