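import Pool.Agent.E8helper73.ZO.En
import Pool.Agent.H914R2.Core0

/-!
# The ideal of the endomorphisms with algebraic parity components

(The pattern of the proofs is that of `Pool.Agent.E8helper32.Inf.Ideal` and `Key`.)
-/

set_option autoImplicit false
set_option linter.unusedSectionVars false

open CategoryTheory Limits MonoidalCategory Module Polynomial
open Pool.Agent.Y112.SR Pool.Agent.Y112.KD Pool.Agent.Y112.SC Pool.Agent.R484.NC
open Pool.Agent.Y133.Half

namespace Pool.Agent.E8helper73.ZO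

universe v u w

section lin

variable {K V : Type*} [Field K] [AddCommGroup V] [Module K V] [FiniteDimensional K V]

lemma exists_fit (y : Module.End K V) : ∃ q : K[X], (aeval y q * y) * (aeval y q * y) =
    aeval y q * y ∧ (aeval y q * y = 0 → IsNilpotent y) := by
  obtain ⟨w, k, _, hw, hk, g, hg⟩ := Pool.Agent.H914.exists_fitting y
  have h1 : aeval y g * y = 1 - aeval y w := by
    have h2 : aeval y g * y = aeval y (X * g) := by
      rw [mul_comm X g, map_mul, aeval_X]
    rw [h2, ← hg, map_sub, map_one]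
  refine ⟨g, ?_, fun h => ⟨k, ?_⟩⟩
  · rw [h1, mul_sub, sub_mul, sub_mul, hw]
    simp
  · rw [h1, sub_eq_zero] at h
    rwa [← h, mul_one] at hk

/-- A subspace of operators which is closed under products contains the Fitting projectors. -/
lemma fit_mem {J : Submodule K (Module.End K V)} (hJ : ∀ a ∈ J, ∀ b ∈ J, a * b ∈ J)
    {x : Module.End K V} (hx : x ∈ J) (q : K[X]) : aeval x q * x ∈ J := by
  induction q using Polynomial.induction_on' with
  | add p q hp hq => rw [map_add, add_mul]; exact Submodule.add_mem _ hp hq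
  | monomial n a =>
    rw [aeval_monomial]
    have h1 : x ^ n * x ∈ J := by
      induction n with
      | zero => rw [pow_zero, one_mul]; exact hx
      | succ n ih => rw [pow_succ]; exact hJ _ ih _ hx
    rw [mul_assoc, ← Algebra.smul_def]
    exact Submodule.smul_mem _ _ h1

lemma fit_comm (x : Module.End K V) (q : K[X]) : aeval x q * x = x * aeval x q := by
  have : Commute (aeval x q) (aeval x (X : K[X])) := by
    rw [Commute, SemiconjBy, ← map_mul, ← map_mul, mul_comm]
  rw [aeval_X] at this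
  exact this

lemma trace_idem {e : Module.End K V} (he : e * e = e) :
    LinearMap.trace K V e = finrank K (LinearMap.range e) :=
  (LinearMap.IsIdempotentElem.isProj_range _ he).trace

lemma rank_add {e f : Module.End K V} [CharZero K] (he : e * e = e) (hf : f * f = f)
    (hef : e * f = 0) (hfe : f * e = 0) (h0 : f ≠ 0) :
    finrank K (LinearMap.range e) < finrank K (LinearMap.range (e + f)) := by
  have h1 : (e + f) * (e + f) = e + f := by
    rw [add_mul, mul_add, mul_add, he, hf, hef, hfe, add_zero, zero_add]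
  have t1 := trace_idem (K := K) he
  have t2 := trace_idem (K := K) hf
  have t3 := trace_idem (K := K) h1
  rw [map_add, t1, t2] at t3
  have h2 : finrank K (LinearMap.range e) + finrank K (LinearMap.range f) =
      finrank K (LinearMap.range (e + f)) := by exact_mod_cast t3
  have h3 : finrank K (LinearMap.range f) ≠ 0 := by
    intro h
    exact h0 (LinearMap.range_eq_bot.1 (Submodule.finrank_eq_zero.1 h))
  omega

/-- There is an idempotent of maximal rank; the complement annihilates the subspace up to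
nilpotent operators. -/
lemma exists_max_idem [CharZero K] {J : Submodule K (Module.End K V)}
    (hJ : ∀ a ∈ J, ∀ b ∈ J, a * b ∈ J) :
    ∃ e ∈ J, e * e = e ∧ ∀ x ∈ J, IsNilpotent ((1 - e) * x * (1 - e)) := by
  classical
  let Q : ℕ → Prop := fun n => ∃ e ∈ J, e * e = e ∧ finrank K V - finrank K (LinearMap.range e) = n
  have hQ : ∃ n, Q n := ⟨_, 0, Submodule.zero_mem _, mul_zero _, rfl⟩
  obtain ⟨e, he, hee, hn⟩ := Nat.find_spec hQ
  have hmax : ∀ f ∈ J, f * f = f → finrank K (LinearMap.range f) ≤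
      finrank K (LinearMap.range e) := by
    intro f hf hff
    by_contra hlt
    push Not at hlt
    have h1 : finrank K (LinearMap.range f) ≤ finrank K V := Submodule.finrank_le _
    exact Nat.find_min hQ (m := finrank K V - finrank K (LinearMap.range f)) (by omega)
      ⟨f, hf, hff, rfl⟩
  refine ⟨e, he, hee, fun x hx => ?_⟩
  set y := (1 - e) * x * (1 - e) with hy
  have hyJ : y ∈ J := by
    have h1 : y = x - e * x - (x - e * x) * e := by rw [hy]; noncomm_ring
    rw [h1]
    have h2 : x - e * x ∈ J := Submodule.sub_mem _ hx (hJ _ he _ hx)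
    exact Submodule.sub_mem _ h2 (hJ _ h2 _ he)
  have he1 : (1 - e) * e = 0 := by rw [sub_mul, one_mul, hee, sub_self]
  have he2 : e * (1 - e) = 0 := by rw [mul_sub, mul_one, hee, sub_self]
  have hye : y * e = 0 := by
    rw [hy, mul_assoc, he1, mul_zero]
  have hey : e * y = 0 := by
    rw [hy, ← mul_assoc, ← mul_assoc, he2, zero_mul, zero_mul]
  obtain ⟨q, hq1, hq2⟩ := exists_fit y
  apply hq2
  by_contra hne
  have h1 : e * (aeval y q * y) = 0 := by rw [fit_comm, ← mul_assoc, hey, zero_mul]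
  have h2 : (aeval y q * y) * e = 0 := by rw [mul_assoc, hye, mul_zero]
  have h3 := rank_add hee hq1 h1 h2 hne
  have h4 := hmax (e + aeval y q * y) (Submodule.add_mem _ he (fit_mem hJ hyJ q)) (by
    rw [add_mul, mul_add, mul_add, hee, hq1, h1, h2, add_zero, zero_add])
  omega

lemma trace_ne_zero [CharZero K] {e : Module.End K V} (he : e * e = e) (h0 : e ≠ 0) :
    LinearMap.trace K V e ≠ 0 := by
  rw [trace_idem (K := K) he]
  intro h
  have h1 : finrank K (LinearMap.range e) = 0 := by exact_mod_cast h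
  exact h0 (LinearMap.range_eq_bot.1 (Submodule.finrank_eq_zero.1 h1))

/-- A rational functional on the coefficient field. -/
lemma exists_phi (K : Type*) [Field K] [CharZero K] : ∃ φ : K →ₗ[ℚ] ℚ, φ 1 = 1 := by
  have h1 : LinearMap.ker (Algebra.linearMap ℚ K) = ⊥ :=
    LinearMap.ker_eq_bot.2 (algebraMap ℚ K).injective
  obtain ⟨φ, hφ⟩ := (Algebra.linearMap ℚ K).exists_leftInverse_of_injective h1
  refine ⟨φ, ?_⟩
  have := congrArg (fun f : ℚ →ₗ[ℚ] ℚ => f 1) hφ
  simpa using this

lemma phi_cast {K : Type*} [Field K] [CharZero K] (φ : K →ₗ[ℚ] ℚ) (t : K) (r : ℚ) :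
    φ (t * (r : K)) = r * φ t := by
  have : t * (r : K) = r • t := by rw [Rat.smul_def, mul_comm]
  rw [this, map_smul, smul_eq_mul]

end lin

variable {C : Type u} [Category.{v} C] [Preadditive C] [Linear ℚ C] [MonoidalCategory C]
  [MonoidalPreadditive C] [MonoidalLinear ℚ C] [SymmetricCategory C]
  [RightRigidCategory C] {K : Type w} [Field K] {R : SuperRealisation C K}

/-- The endomorphisms `u` such that the product of the parity operator and `u` is algebraic. -/
def idI (R : SuperRealisation C K) (M : C) : Set (M ⟶ M) :=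
  {u | ∃ v : M ⟶ M, op R v = pr R M * op R u}

/-- The span of the ideal. -/
def idJ (R : SuperRealisation C K) (M : C) : Submodule K (Module.End K (R.H.obj M)) :=
  Submodule.span K {x | ∃ u ∈ idI R M, op R u = x}

variable {M : C}

lemma idJ_ind {p : Module.End K (R.H.obj M) → Prop} (h : ∀ u ∈ idI R M, p (op R u)) (h0 : p 0)
    (hadd : ∀ a b, p a → p b → p (a + b)) (hs : ∀ (t : K) a, p a → p (t • a))
    {x : Module.End K (R.H.obj M)} (hx : x ∈ idJ R M) : p x := by
  induction hx using Submodule.span_induction with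
  | mem x hx => obtain ⟨u, hu, rfl⟩ := hx; exact h u hu
  | zero => exact h0
  | add x y _ _ hx hy => exact hadd x y hx hy
  | smul t x _ hx => exact hs t x hx

lemma op_idJ {u : M ⟶ M} (hu : u ∈ idI R M) : op R u ∈ idJ R M :=
  Submodule.subset_span ⟨u, hu, rfl⟩

lemma idJ_S {x : Module.End K (R.H.obj M)} (hx : x ∈ idJ R M) : x ∈ S R M :=
  idJ_ind (p := fun x => x ∈ S R M) (fun u _ => op_S u) (Submodule.zero_mem _)
    (fun _ _ ha hb => Submodule.add_mem _ ha hb) (fun t _ ha => Submodule.smul_mem _ t ha) hx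

lemma idI_comp {u f : M ⟶ M} (hu : u ∈ idI R M) : f ≫ u ∈ idI R M := by
  obtain ⟨v, hv⟩ := hu
  refine ⟨f ≫ v, ?_⟩
  rw [R484.NC.op_comp R, R484.NC.op_comp R, hv, mul_assoc]

lemma idJ_mul : ∀ a ∈ idJ R M, ∀ b ∈ idJ R M, a * b ∈ idJ R M := by
  intro a ha b hb
  refine idJ_ind (p := fun a => a * b ∈ idJ R M) ?_ ?_ ?_ ?_ ha
  · intro u hu
    refine idJ_ind (p := fun b => op R u * b ∈ idJ R M) ?_ ?_ ?_ ?_ hb
    · intro v _
      rw [← R484.NC.op_comp R]
      exact op_idJ (idI_comp hu)
    · rw [mul_zero]; exact Submodule.zero_mem _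
    · intro x y hx hy; rw [mul_add]; exact Submodule.add_mem _ hx hy
    · intro t x hx; rw [mul_smul_comm]; exact Submodule.smul_mem _ _ hx
  · rw [zero_mul]; exact Submodule.zero_mem _
  · intro x y hx hy; rw [add_mul]; exact Submodule.add_mem _ hx hy
  · intro t x hx; rw [smul_mul_assoc]; exact Submodule.smul_mem _ _ hx

/-- Numerically trivial operators. -/
def NT (R : SuperRealisation C K) (M : C) (x : Module.End K (R.H.obj M)) : Prop :=
  ∀ y ∈ S R M, st R M (x * y) = 0

/-- The super trace of a nilpotent operator vanishes. -/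
lemma st_nilp {x : Module.End K (R.H.obj M)} (hx : x ∈ S R M) (hn : IsNilpotent x) :
    st R M x = 0 := by
  have h2 : IsNilpotent (pr R M * x) := by
    obtain ⟨n, hn⟩ := hn
    refine ⟨n, ?_⟩
    have hc : Commute (pr R M) x := pr_S hx
    rw [hc.mul_pow, hn, mul_zero]
  exact (LinearMap.isNilpotent_trace_of_isNilpotent h2).eq_zero

/-- The maximal idempotent of the ideal. -/
lemma exists_eps (R : SuperRealisation C K) (M : C) :
    ∃ e ∈ idJ R M, e * e = e ∧ ∀ u ∈ idI R M, st R M ((1 - e) * op R u) = 0 := by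
  have hK := R_charZero R
  obtain ⟨e, he, hee, h⟩ := exists_max_idem (idJ_mul (R := R) (M := M))
  refine ⟨e, he, hee, fun u hu => ?_⟩
  have huJ : op R u ∈ idJ R M := op_idJ hu
  have h1 := h _ huJ
  have h2 : (1 - e) * op R u * (1 - e) ∈ S R M :=
    mul_S (mul_S (Submodule.sub_mem _ one_S (idJ_S he)) (op_S u))
      (Submodule.sub_mem _ one_S (idJ_S he))
  have h3 := st_nilp h2 h1
  have h4 : (1 - e) * (1 - e) = 1 - e := by
    rw [mul_sub, sub_mul, sub_mul, hee]; simp
  have h5 : (1 - e : Module.End K (R.H.obj M)) ∈ S R M := Submodule.sub_mem _ one_S (idJ_S he)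
  rw [st_comm (pr_S h5), ← mul_assoc, h4] at h3
  exact h3

/-- A functional applied to an element of the span of the ideal. -/
lemma exists_descent [CharZero K] (hU : UnitQ C) {x : Module.End K (R.H.obj M)} (hx : x ∈ idJ R M) :
    ∀ φ : K →ₗ[ℚ] ℚ, ∃ u ∈ idI R M, ∀ b : M ⟶ M,
      ctr hU (b ≫ u) = φ (st R M (x * op R b)) := by
  refine idJ_ind (p := fun x => ∀ φ : K →ₗ[ℚ] ℚ, ∃ u ∈ idI R M, ∀ b : M ⟶ M,
      ctr hU (b ≫ u) = φ (st R M (x * op R b))) ?_ ?_ ?_ ?_ hx
  · intro u hu φ
    obtain ⟨v, hv⟩ := hu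
    refine ⟨φ 1 • u, ⟨φ 1 • v, ?_⟩, fun b => ?_⟩
    · rw [R484.NC.op_smul R, R484.NC.op_smul R, hv, mul_smul_comm]
    · rw [Linear.comp_smul, ctr_smul, ← R484.NC.op_comp R, st_op, ← ctr_eq R hU]
      have := phi_cast φ 1 (ctr hU (b ≫ u))
      rw [one_mul] at this
      rw [this, mul_comm]
  · intro φ
    refine ⟨0, ⟨0, ?_⟩, fun b => ?_⟩
    · have h0 : op R (0 : M ⟶ M) = 0 := by rw [op, Functor.map_zero]; rfl
      rw [h0, mul_zero]
    · have h0 : ctr hU (0 : M ⟶ M) = 0 := (trq hU M).map_zero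
      rw [Limits.comp_zero, zero_mul, st_zero, map_zero]
      exact h0
  · intro x y hx hy φ
    obtain ⟨u, ⟨v, hv⟩, hu'⟩ := hx φ
    obtain ⟨u2, ⟨v2, hv2⟩, hu2'⟩ := hy φ
    refine ⟨u + u2, ⟨v + v2, ?_⟩, fun b => ?_⟩
    · rw [R484.NC.op_add R, R484.NC.op_add R, hv, hv2, mul_add]
    · rw [Preadditive.comp_add, ctr_add, hu', hu2', add_mul, st_add, map_add]
  · intro t x hx φ
    obtain ⟨u, hu, hu'⟩ := hx (φ ∘ₗ (LinearMap.mulLeft ℚ t))
    refine ⟨u, hu, fun b => ?_⟩
    rw [hu' b, smul_mul_assoc, st_smul]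
    rfl

/-- If the span of the ideal contains the identity up to numerically trivial operators, then so
does the ideal. -/
lemma exists_unit (hU : UnitQ C) {e : Module.End K (R.H.obj M)} (he : e ∈ idJ R M)
    (hN : NT R M (1 - e)) : ∃ u ∈ idI R M, NumZero hU (𝟙 M - u) := by
  have hK := R_charZero R
  obtain ⟨φ, hφ⟩ := exists_phi K
  obtain ⟨u, hu, hu'⟩ := exists_descent hU he φ
  refine ⟨u, hu, fun b => ?_⟩
  have h1 := hN _ (op_S b)
  rw [sub_mul, one_mul, st_sub, sub_eq_zero, st_op, ← ctr_eq R hU] at h1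
  have h2 := hu' b
  rw [← h1] at h2
  have h3 := phi_cast φ 1 (ctr hU b)
  rw [one_mul, hφ, mul_one] at h3
  rw [h3, ctr_comm R hU] at h2
  rw [Preadditive.sub_comp, Category.id_comp, ctr_sub, h2, sub_self]

/-- Numerically trivial endomorphisms are numerically trivial operators. -/
lemma nt_of_numZero (hU : UnitQ C) {f : M ⟶ M} (hf : NumZero hU f) : NT R M (op R f) := by
  intro y hy
  refine S_ind (p := fun y => st R M (op R f * y) = 0) ?_ ?_ ?_ ?_ hy
  · intro g
    have h1 := hf g
    rw [ctr_comm R hU] at h1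
    rw [← R484.NC.op_comp R, st_op, ← ctr_eq R hU, h1, Rat.cast_zero]
  · rw [mul_zero, st_zero]
  · intro a b ha hb; rw [mul_add, st_add, ha, hb, add_zero]
  · intro t a ha; rw [mul_smul_comm, st_smul, ha, mul_zero]

end Pool.Agent.E8helper73.ZO
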