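import Pool.Agent.E8helper73.ZO.Dim

/-!
# The zero-one law
-/

set_option autoImplicit false
set_option linter.unusedSectionVars false

open CategoryTheory Limits MonoidalCategory Module Polynomial
open Pool.Agent.Y112.SR Pool.Agent.Y112.KD Pool.Agent.Y112.SC Pool.Agent.R484.NC
open Pool.Agent.Y133.Half

namespace Pool.Agent.E8helper73.ZO

universe v u w

variable {C : Type u} [Category.{v} C] [Preadditive C] [Linear ℚ C] [MonoidalCategory C]
  [MonoidalPreadditive C] [MonoidalLinear ℚ C] [SymmetricCategory C]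
  [RightRigidCategory C] {K : Type w} [Field K] {R : SuperRealisation C K}

variable {M : C}

/-- If the complement is nilpotent, the parity operator is algebraic. -/
lemma cplus_of_nil {u : M ⟶ M} (hu : u ∈ idI R M) (hn : IsNilpotent (op R (𝟙 M - u))) :
    R.CPlus M := by
  obtain ⟨v, hv⟩ := hu
  have key : ∀ m : ℕ, ∃ w : M ⟶ M, (op R (𝟙 M - u)) ^ m = 1 - op R u * op R w := by
    intro m
    induction m with
    | zero =>
      refine ⟨0, ?_⟩
      have h0 : op R (0 : M ⟶ M) = 0 := by rw [op, Functor.map_zero]; rfl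
      rw [pow_zero, h0, mul_zero, sub_zero]
    | succ m ih =>
      obtain ⟨w, hw⟩ := ih
      refine ⟨𝟙 M + (𝟙 M - u) ≫ w, ?_⟩
      rw [pow_succ, hw, R484.NC.op_add R, R484.NC.op_comp R, R484.NC.op_sub R, R484.NC.op_id R]
      noncomm_ring
  obtain ⟨m, hm⟩ := hn
  obtain ⟨w, hw⟩ := key m
  rw [hm] at hw
  have h1 : op R u * op R w = 1 := (sub_eq_zero.1 hw.symm).symm
  rw [cplus_iff]
  refine ⟨w ≫ v, ?_⟩
  apply ModuleCat.hom_ext
  change op R (w ≫ v) = pr R M
  rw [R484.NC.op_comp R, hv, mul_assoc, h1, mul_one]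

lemma aeval_S {y : Module.End K (R.H.obj M)} (hy : y ∈ S R M) (q : K[X]) :
    aeval y q ∈ S R M := by
  have h1 : ∀ n : ℕ, y ^ n ∈ S R M := by
    intro n
    induction n with
    | zero => rw [pow_zero]; exact one_S
    | succ n ih => rw [pow_succ]; exact mul_S ih hy
  rw [Polynomial.aeval_eq_sum_range]
  exact Submodule.sum_mem _ fun i _ => Submodule.smul_mem _ _ (h1 i)

/-- If the ideal contains the identity, the parity operator is algebraic. -/
lemma cplus_of_one (hU : UnitQ C) (h1 : (1 : Module.End K (R.H.obj M)) ∈ idJ R M) :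
    R.CPlus M := by
  have hK := R_charZero R
  obtain ⟨u, hu, huN⟩ := exists_unit hU h1 (by rw [sub_self]; exact NT.zero)
  refine cplus_of_nil hu ?_
  by_contra hn
  have hpr : pr R M ∈ S R M := by
    have h2 : ∀ x ∈ idJ R M, pr R M * x ∈ S R M := by
      intro x hx
      refine idJ_ind (p := fun x => pr R M * x ∈ S R M) ?_ ?_ ?_ ?_ hx
      · rintro u ⟨v, hv⟩; rw [← hv]; exact op_S v
      · rw [mul_zero]; exact Submodule.zero_mem _
      · intro a b ha hb; rw [mul_add]; exact Submodule.add_mem _ ha hb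
      · intro t a ha; rw [mul_smul_comm]; exact Submodule.smul_mem _ _ ha
    have h3 := h2 1 h1
    rwa [mul_one] at h3
  obtain ⟨q, hq1, hq2⟩ := exists_fit (op R (𝟙 M - u))
  set y := op R (𝟙 M - u) with hy
  have hf0 : aeval y q * y ≠ 0 := fun h => hn (hq2 h)
  have hyN : NT R M y := nt_of_numZero hU huN
  have hqS : aeval y q ∈ S R M := aeval_S (op_S _) q
  have hfN : NT R M (aeval y q * y) := hyN.left hqS
  have h2 := hfN _ hpr
  rw [st, LinearMap.trace_mul_comm, mul_assoc, pr_sq, mul_one] at h2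
  exact trace_ne_zero hq1 hf0 h2

/-- The operator of the tensor power of an endomorphism. -/
lemma op_tpm (u : M ⟶ M) (n : ℕ) : op R (tpm u n) = pin R M (op R u) n := by
  induction n with
  | zero => exact R484.NC.op_id R _
  | succ n ih =>
    have h1 : op R (tpm u (n + 1)) = op R (tpm u n ⊗ₘ u) := rfl
    rw [h1, ← ext_op, ih]
    rfl

lemma exists_w {u : M ⟶ M} (hu : u ∈ idI R M) (n : ℕ) (i : Fin n) :
    ∃ w : tp M n ⟶ tp M n, R.H.map w = R.H.map (tpm u n) ≫ parAt R M n i := by
  obtain ⟨v, hv⟩ := hu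
  have hv' : R.H.map v = R.H.map u ≫ R.par M := ModuleCat.hom_ext hv
  induction n with
  | zero => exact i.elim0
  | succ n ih =>
    have h1 : R.H.map (tpm u (n + 1)) = bx R (R.H.map (tpm u n)) (R.H.map u) := by
      rw [bx_map]; rfl
    refine Fin.lastCases ?_ (fun j => ?_) i
    · refine ⟨tpm u n ⊗ₘ v, ?_⟩
      rw [parAt_last, h1, bx_comp, Category.comp_id, ← hv', bx_map]
    · obtain ⟨w, hw⟩ := ih j
      refine ⟨w ⊗ₘ u, ?_⟩
      rw [parAt_cast, h1, bx_comp, Category.comp_id, ← hw, bx_map]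

/-- Products with the tensor power of an element of the ideal are good. -/
lemma good_comp {u : M ⟶ M} (hu : u ∈ idI R M) (n : ℕ) (x : tp M n ⟶ tp M n) :
    GoodEnd R M n (x ≫ tpm u n) := by
  intro i
  obtain ⟨w, hw⟩ := exists_w hu n i
  refine ⟨x ≫ w, ?_⟩
  rw [Functor.map_comp, Functor.map_comp, hw, Category.assoc]

lemma nt_pa {g : Module.End K (R.H.obj M)} (hg : g ∈ S R M) (hN : NT R M g) (n : ℕ) (i : Fin n) :
    NT R (tp M n) (pa R M g n i) := by
  obtain ⟨Ψ, h1, h2, h3⟩ := exists_ptr R M n i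
  intro z hz
  refine S_ind (p := fun z => st R (tp M n) (pa R M g n i * z) = 0) ?_ ?_ ?_ ?_ hz
  · intro f
    obtain ⟨u, hu⟩ := h1 f
    rw [← h3, h2 g (pr_S hg), hu]
    exact hN _ (op_S u)
  · rw [mul_zero, st_zero]
  · intro a b ha hb; rw [mul_add, st_add, ha, hb, add_zero]
  · intro t a ha; rw [mul_smul_comm, st_smul, ha, mul_zero]

lemma nt_pin {e : Module.End K (R.H.obj M)} (he : e ∈ S R M) (hN : NT R M (1 - e)) (n : ℕ) :
    NT R (tp M n) (1 - pin R M e n) := by
  have h1 := pin_LI he n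
  generalize (1 - pin R M e n) = T at h1
  induction h1 using Submodule.span_induction with
  | mem y hy =>
    obtain ⟨i, t, ht, rfl⟩ := hy
    exact (nt_pa (Submodule.sub_mem _ one_S he) hN n i).left ht
  | zero => exact NT.zero
  | add y z _ _ hy hz => exact hy.add hz
  | smul t y _ hy => exact hy.smul t

lemma numZero_of_nt (hU : UnitQ C) {X : C} {f : X ⟶ X} (hf : NT R X (op R f)) : NumZero hU f := by
  have hK := R_charZero R
  intro g
  have h1 := hf _ (op_S g)
  rw [← R484.NC.op_comp R, st_op, ← ctr_eq R hU, ctr_comm R hU] at h1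
  exact_mod_cast h1

/-- If the complement of the idempotent is numerically trivial, the dimension is small. -/
lemma numDim_small (hU : UnitQ C) {e : Module.End K (R.H.obj M)} (he : e ∈ S R M)
    (hee : e * e = e) (hN : NT R M (1 - e)) (n : ℕ) (T : Set (tp M (n + 1) ⟶ tp M (n + 1))) :
    numDim hU T ≤ (finrank K (LinearMap.range e) ^ 2) ^ (n + 1) := by
  have h1 : numDim hU T ≤ rr R (tp M (n + 1)) (pin R M e (n + 1)) :=
    numDim_le hU T _ fun x _ => (nt_pin he hN (n + 1)).right (op_S x)
  have h2 : rr R (tp M (n + 1)) (pin R M e (n + 1)) ≤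
      en R (tp M (n + 1)) (pin R M e (n + 1)) := by
    set P := pin R M e (n + 1) with hP
    have hPS : P ∈ S R _ := pin_S he (n + 1)
    have h3 : be R (tp M (n + 1)) P 1 = be R (tp M (n + 1)) P P := by
      apply LinearMap.ext
      intro x
      apply LinearMap.ext
      intro y
      rw [be_eq, be_eq, one_mul]
      have h4 : st R (tp M (n + 1)) ((1 - P) * ((y : Module.End K (R.H.obj (tp M (n + 1)))) *
          (P * x))) = 0 := nt_pin he hN (n + 1) _ (mul_S y.2 (mul_S hPS x.2))
      rw [sub_mul, one_mul, st_sub, sub_eq_zero] at h4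
      rw [← mul_assoc P (x : Module.End K (R.H.obj (tp M (n + 1)))),
        st_comm (pr_S y.2), h4, ← mul_assoc P (y : Module.End K (R.H.obj (tp M (n + 1)))),
        st_comm (pr_S (mul_S hPS x.2)), mul_assoc]
    rw [rr, en, h3]
  have h3 := en_le_sq (R := R) (X := tp M (n + 1)) (pin R M e (n + 1))
  rw [rank_pin hee] at h3
  refine h1.trans (h2.trans (h3.trans ?_))
  rw [← pow_mul, ← pow_mul, mul_comm]

/-- the ideal is two-sided -/
lemma idI_comp' {u f : M ⟶ M} (hu : u ∈ idI R M) : u ≫ f ∈ idI R M := by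
  obtain ⟨v, hv⟩ := hu
  refine ⟨v ≫ f, ?_⟩
  rw [R484.NC.op_comp R, R484.NC.op_comp R, hv, ← mul_assoc, ← mul_assoc, pr_op]

lemma idJ_left {x y : Module.End K (R.H.obj M)} (hx : x ∈ S R M) (hy : y ∈ idJ R M) :
    x * y ∈ idJ R M := by
  refine S_ind (p := fun x => x * y ∈ idJ R M) ?_ ?_ ?_ ?_ hx
  · intro f
    refine idJ_ind (p := fun y => op R f * y ∈ idJ R M) ?_ ?_ ?_ ?_ hy
    · intro u hu; rw [← R484.NC.op_comp R]; exact op_idJ (idI_comp' hu)
    · rw [mul_zero]; exact Submodule.zero_mem _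
    · intro a b ha hb; rw [mul_add]; exact Submodule.add_mem _ ha hb
    · intro t a ha; rw [mul_smul_comm]; exact Submodule.smul_mem _ _ ha
  · rw [zero_mul]; exact Submodule.zero_mem _
  · intro a b ha hb; rw [add_mul]; exact Submodule.add_mem _ ha hb
  · intro t a ha; rw [smul_mul_assoc]; exact Submodule.smul_mem _ _ ha

lemma idJ_right {x y : Module.End K (R.H.obj M)} (hx : x ∈ idJ R M) (hy : y ∈ S R M) :
    x * y ∈ idJ R M := by
  refine S_ind (p := fun y => x * y ∈ idJ R M) ?_ ?_ ?_ ?_ hy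
  · intro f
    refine idJ_ind (p := fun x => x * op R f ∈ idJ R M) ?_ ?_ ?_ ?_ hx
    · intro u hu; rw [← R484.NC.op_comp R]; exact op_idJ (idI_comp hu)
    · rw [zero_mul]; exact Submodule.zero_mem _
    · intro a b ha hb; rw [add_mul]; exact Submodule.add_mem _ ha hb
    · intro t a ha; rw [smul_mul_assoc]; exact Submodule.smul_mem _ _ ha
  · rw [mul_zero]; exact Submodule.zero_mem _
  · intro a b ha hb; rw [mul_add]; exact Submodule.add_mem _ ha hb
  · intro t a ha; rw [mul_smul_comm]; exact Submodule.smul_mem _ _ ha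

lemma st_idJ {g : Module.End K (R.H.obj M)} (h : ∀ u ∈ idI R M, st R M (g * op R u) = 0)
    {x : Module.End K (R.H.obj M)} (hx : x ∈ idJ R M) : st R M (g * x) = 0 := by
  refine idJ_ind (p := fun x => st R M (g * x) = 0) h ?_ ?_ ?_ hx
  · rw [mul_zero, st_zero]
  · intro a b ha hb; rw [mul_add, st_add, ha, hb, add_zero]
  · intro t a ha; rw [mul_smul_comm, st_smul, ha, mul_zero]

/-- There is an endomorphism which is the unit of the ideal modulo numerical equivalence. -/
lemma exists_u (hU : UnitQ C) {e : Module.End K (R.H.obj M)} (he : e ∈ idJ R M)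
    (htr : ∀ u ∈ idI R M, st R M ((1 - e) * op R u) = 0) :
    ∃ u ∈ idI R M, (∀ v ∈ idI R M, st R M ((1 - op R u) * op R v) = 0) ∧
      NT R M (e - op R u) := by
  have hK := R_charZero R
  obtain ⟨φ, hφ⟩ := exists_phi K
  obtain ⟨u, hu, hu'⟩ := exists_descent hU he φ
  have h1 : ∀ v ∈ idI R M, st R M ((1 - op R u) * op R v) = 0 := by
    intro v hv
    have h2 := htr v hv
    rw [sub_mul, one_mul, st_sub, sub_eq_zero, st_op, ← ctr_eq R hU] at h2
    have h3 := hu' v
    rw [← h2] at h3
    have h4 := phi_cast φ 1 (ctr hU v)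
    rw [one_mul, hφ, mul_one] at h4
    rw [h4] at h3
    rw [sub_mul, one_mul, st_sub, ← R484.NC.op_comp R, st_op, st_op, ← ctr_eq R hU,
      ← ctr_eq R hU, h3, sub_self]
  refine ⟨u, hu, h1, fun y hy => ?_⟩
  have huJ : op R u ∈ idJ R M := op_idJ hu
  have e1 : st R M ((1 - op R u) * (e * y)) = 0 := st_idJ h1 (idJ_right he hy)
  have e2 : st R M ((1 - e) * (y * op R u)) = 0 := st_idJ htr (idJ_left hy huJ)
  rw [sub_mul, one_mul, st_sub, sub_eq_zero] at e1 e2
  have e3 : st R M (op R u * (e * y)) = st R M (e * (y * op R u)) := by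
    rw [← st_comm (pr_S (op_S u)), mul_assoc]
  have e4 : st R M (op R u * y) = st R M (y * op R u) := (st_comm (pr_S (op_S u))).symm
  rw [sub_mul, st_sub, e1, e3, e4, ← e2, sub_self]

/-- Numerically trivial operators are nilpotent if the parity operator is algebraic. -/
lemma nil_of_nt (hpr : pr R M ∈ S R M) {y : Module.End K (R.H.obj M)} (hy : y ∈ S R M)
    (hN : NT R M y) : IsNilpotent y := by
  have hK := R_charZero R
  by_contra hn
  obtain ⟨q, hq1, hq2⟩ := exists_fit y
  have hf0 : aeval y q * y ≠ 0 := fun h => hn (hq2 h)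
  have hfN : NT R M (aeval y q * y) := hN.left (aeval_S hy q)
  have h2 := hfN _ hpr
  rw [st, LinearMap.trace_mul_comm, mul_assoc, pr_sq, mul_one] at h2
  exact trace_ne_zero hq1 hf0 h2

/-- **The zero-one law.** -/
theorem main (hU : UnitQ C) (R : SuperRealisation C K) (M : C) : ∃ u v : M ⟶ M,
    R.H.map v = R.H.map u ≫ R.par M ∧
    (∀ (n : ℕ) (x : tp M n ⟶ tp M n), (∃ x', GoodEnd R M n x' ∧ NumZero hU (x - x')) ↔
      NumZero hU (x - x ≫ tpm u n)) ∧
    (R.CPlus M ↔ IsNilpotent (op R (𝟙 M - u))) ∧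
    (NumZero hU (𝟙 M - u) → ¬ R.CPlus M → ∀ n : ℕ,
      numDim hU (Set.univ : Set (tp M (n + 1) ⟶ tp M (n + 1))) ≤
        ((finrank K (R.H.obj M) - 1) ^ 2) ^ (n + 1)) ∧
    (¬ NumZero hU (𝟙 M - u) → ∀ δ : ℝ, 0 ≤ δ → ((finrank K (R.H.obj M) : ℝ) - 1) ^ 2 /
        (1 + ((finrank K (R.H.obj M) : ℝ) - 1) ^ 2) < δ ^ 2 → ∃ n₀ : ℕ, ∀ n ≥ n₀,
      (numDim hU {x : tp M n ⟶ tp M n | GoodEnd R M n x} : ℝ) ≤
        δ ^ n * numDim hU (Set.univ : Set (tp M n ⟶ tp M n))) := by
  have hK := R_charZero R
  obtain ⟨e, heJ, hee, htr⟩ := exists_eps R M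
  have he : e ∈ S R M := idJ_S heJ
  have hff : (1 - e) * (1 - e) = 1 - e := by rw [mul_sub, sub_mul, sub_mul, hee]; simp
  obtain ⟨u, hu, htru, hNu⟩ := exists_u hU heJ htr
  have hiff : NumZero hU (𝟙 M - u) ↔ NT R M (1 - e) := by
    constructor
    · intro h1 y hy
      have h2 := nt_of_numZero (R := R) hU h1 y hy
      have h3 := hNu y hy
      rw [R484.NC.op_sub R, R484.NC.op_id R, sub_mul, st_sub, sub_eq_zero] at h2
      rw [sub_mul, st_sub, sub_eq_zero] at h3
      rw [sub_mul, st_sub, h3, ← h2, sub_self]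
    · intro h1
      apply numZero_of_nt (R := R) hU
      intro y hy
      have h2 := h1 y hy
      have h3 := hNu y hy
      rw [sub_mul, st_sub, sub_eq_zero] at h2 h3
      rw [R484.NC.op_sub R, R484.NC.op_id R, sub_mul, st_sub, ← h3, ← h2, sub_self]
  have hrk : e ≠ 1 → finrank K (LinearMap.range e) + 1 ≤ finrank K (R.H.obj M) := by
    intro he1
    have h1 := rank_add hee hff (by rw [mul_sub, mul_one, hee, sub_self])
      (by rw [sub_mul, one_mul, hee, sub_self]) (sub_ne_zero.2 he1.symm)
    rw [add_sub_cancel] at h1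
    have h2 := Submodule.finrank_le (LinearMap.range (1 : Module.End K (R.H.obj M)))
    omega
  have hopx : ∀ (n : ℕ) (x : tp M n ⟶ tp M n),
      op R (x - x ≫ tpm u n) = (1 - pin R M (op R u) n) * op R x := by
    intro n x
    rw [R484.NC.op_sub R, R484.NC.op_comp R, sub_mul, one_mul, op_tpm]
  obtain ⟨v, hv⟩ := hu
  have hu : u ∈ idI R M := ⟨v, hv⟩
  refine ⟨u, v, ModuleCat.hom_ext hv, fun n x => ⟨?_, fun hx => ?_⟩, ⟨fun h => ?_, fun h => ?_⟩,
    fun hN h n => ?_, fun hNz => ?_⟩
  · rintro ⟨x', hx', hN⟩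
    apply numZero_of_nt (R := R) hU
    rw [hopx]
    have h1 : NT R (tp M n) ((1 - pin R M (op R u) n) * op R x') := good_nt (op_S u) htru hx'
    have h2 : NT R (tp M n) (op R (x - x')) := nt_of_numZero (R := R) hU hN
    have h3 := h2.left (y := 1 - pin R M (op R u) n)
      (Submodule.sub_mem _ one_S (pin_S (op_S u) n))
    have h4 := h3.add h1
    rwa [← mul_add, R484.NC.op_sub R, sub_add_cancel] at h4
  · exact ⟨x ≫ tpm u n, good_comp hu n x, hx⟩
  · -- the sign conjecture implies nilpotency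
    rw [cplus_iff] at h
    obtain ⟨g, hg⟩ := h
    have h1 : (𝟙 M : M ⟶ M) ∈ idI R M := ⟨g, by
      rw [R484.NC.op_id R, mul_one]
      exact congrArg ModuleCat.Hom.hom hg⟩
    have hpr : pr R M ∈ S R M := by
      have h2 : pr R M = op R g := (congrArg ModuleCat.Hom.hom hg).symm
      rw [h2]; exact op_S g
    refine nil_of_nt hpr (op_S _) fun y hy => ?_
    have h3 : y ∈ idJ R M := by
      have h4 := idJ_left hy (op_idJ h1)
      rwa [R484.NC.op_id R, mul_one] at h4
    rw [R484.NC.op_sub R, R484.NC.op_id R]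
    exact st_idJ htru h3
  · exact cplus_of_nil hu h
  · have he1 : e ≠ 1 := by
      rintro rfl
      exact h (cplus_of_one hU heJ)
    refine (numDim_small hU he hee (hiff.1 hN) n _).trans ?_
    have := hrk he1
    exact Nat.pow_le_pow_left (Nat.pow_le_pow_left (by omega) 2) _
  · have hN : ¬ NT R M (1 - e) := fun h => hNz (hiff.2 h)
    have he1 : e ≠ 1 := by
      rintro rfl
      exact hN (by rw [sub_self]; exact NT.zero)
    have hrk := hrk he1
    intro δ hδ0 hδ
    -- the case where the ideal is numerically trivial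
    by_cases hE : 1 ≤ en R M e
    · have hf : 1 ≤ en R M (1 - e) := by
        unfold NT at hN
        push Not at hN
        obtain ⟨y, hy, hy'⟩ := hN
        exact en_pos hff hy hy'
      have hb : ((finrank K (R.H.obj M) - 1 : ℕ) : ℝ) = (finrank K (R.H.obj M) : ℝ) - 1 := by
        rw [Nat.cast_sub (by omega), Nat.cast_one]
      refine compare (g := fun k => en R (tp M (k + 1)) (pin R M e (k + 1)))
        (B := fun k n => en R (tp M (k + 1 + n)) (PP R M e k n))
        (t := fun n => numDim hU (Set.univ : Set (tp M n ⟶ tp M n)))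
        (a := fun n => numDim hU {x : tp M n ⟶ tp M n | GoodEnd R M n x})
        (M := ((finrank K (R.H.obj M) : ℝ) - 1) ^ 2) ?_ ?_ (sq_nonneg _) ?_ ?_ ?_ ?_ ?_ hδ0 hδ
      · -- the first value
        have h1 := en_mul (R := R) (X := tp M 0) (Y := M) 1 e
        have h2 : 1 ≤ en R (tp M 0) 1 := by
          refine en_pos (one_mul 1) one_S ?_
          rw [one_mul]
          have h3 : st R (tp M 0) 1 = 1 := by
            have h4 : pr R (tp M 0) = 1 := congrArg ModuleCat.Hom.hom R.par_unit
            rw [st, h4, one_mul, LinearMap.trace_one]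
            have h5 : R.H.obj (𝟙_ C) ≅ 𝟙_ (ModuleCat.{w} K) := (Functor.Monoidal.εIso R.H).symm
            have h6 := h5.toLinearEquiv.finrank_eq
            have h7 : finrank K (R.H.obj (tp M 0)) = 1 := by
              refine h6.trans ?_
              exact Module.finrank_self K
            rw [h7, Nat.cast_one]
          rw [h3]
          exact one_ne_zero
        exact (Nat.mul_le_mul h2 hE).trans h1
      · -- supermultiplicativity
        intro k l
        have h1 := en_mul (R := R) (pin R M e (k + 1)) (pin R M e (l + 1))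
        rw [en_iso_eq (compat_twAdd e (k + 1) (l + 1))] at h1
        have h2 : (k + 1) + (l + 1) = l + k + 1 + 1 := by ring
        rw [h2] at h1
        exact h1
      · intro k
        have h1 := en_le_sq (R := R) (X := tp M (k + 1)) (pin R M e (k + 1))
        rw [rank_pin hee] at h1
        have h2 : (en R (tp M (k + 1)) (pin R M e (k + 1)) : ℝ) ≤
            (((finrank K (R.H.obj M) - 1 : ℕ) : ℝ) ^ 2) ^ (k + 1) := by
          have h3 : en R (tp M (k + 1)) (pin R M e (k + 1)) ≤
              ((finrank K (R.H.obj M) - 1) ^ 2) ^ (k + 1) := by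
            refine h1.trans ?_
            rw [← pow_mul, mul_comm, pow_mul]
            exact Nat.pow_le_pow_left (Nat.pow_le_pow_left (by omega) 2) _
          exact_mod_cast h3
        rwa [hb] at h2
      · intro k n
        exact PP_rec he hee hf k n
      · intro k
        exact le_rfl
      · intro n
        have h1 := en_mono (PP_S he 0 n) (PP_idem hee 0 n)
        have h2 := le_numDim (R := R) hU (tp M (0 + 1 + n))
        have h3 := h1.trans h2
        have h4 : 0 + 1 + n = n + 1 := by omega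
        have h5 : numDim hU (Set.univ : Set (tp M (0 + 1 + n) ⟶ tp M (0 + 1 + n))) =
            numDim hU (Set.univ : Set (tp M (n + 1) ⟶ tp M (n + 1))) := by rw [h4]
        rw [h5] at h3
        exact h3
      · intro n
        have h1 : numDim hU {x : tp M (n + 1) ⟶ tp M (n + 1) | GoodEnd R M (n + 1) x} ≤
            rr R (tp M (n + 1)) (pin R M e (n + 1)) :=
          numDim_le hU _ _ fun x hx => good_nt he htr hx
        have h2 := rr_sq (R := R) (pin_S he (n + 1)) (pin_idem hee (n + 1))
        have h3 := le_numDim (R := R) hU (tp M (n + 1))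
        exact (Nat.pow_le_pow_left h1 2).trans (h2.trans (Nat.mul_le_mul_left _ h3))
    · -- all elements of the ideal are numerically trivial
      refine ⟨1, fun n hn => ?_⟩
      obtain ⟨m, rfl⟩ : ∃ m, n = m + 1 := ⟨n - 1, by omega⟩
      have h1 : ∀ u ∈ idI R M, st R M ((1 - 0) * op R u) = 0 := by
        intro u hu
        have h2 := htr u hu
        have h3 : st R M (e * op R u) = 0 := by
          by_contra h4
          exact hE (en_pos hee (op_S u) h4)
        rw [sub_mul, st_sub, h3, sub_zero] at h2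
        rw [sub_zero]
        exact h2
      have h2 : numDim hU {x : tp M (m + 1) ⟶ tp M (m + 1) | GoodEnd R M (m + 1) x} ≤
          rr R (tp M (m + 1)) (pin R M 0 (m + 1)) :=
        numDim_le hU _ _ fun x hx => good_nt (Submodule.zero_mem _) h1 hx
      have h3 := rr_sq (R := R) (pin_S (R := R) (M := M) (Submodule.zero_mem _) (m + 1))
        (pin_idem (mul_zero 0) (m + 1))
      have h4 : en R (tp M (m + 1)) (pin R M 0 (m + 1)) = 0 := by
        have h5 := en_le_sq (R := R) (X := tp M (m + 1)) (pin R M 0 (m + 1))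
        rw [rank_pin (mul_zero 0), LinearMap.range_zero, finrank_bot, zero_pow (Nat.succ_ne_zero m),
          zero_pow two_ne_zero] at h5
        exact Nat.le_zero.1 h5
      rw [h4, zero_mul] at h3
      have h5 : rr R (tp M (m + 1)) (pin R M 0 (m + 1)) = 0 :=
        pow_eq_zero_iff two_ne_zero |>.1 (Nat.le_zero.1 h3)
      rw [h5] at h2
      rw [Nat.le_zero.1 h2, Nat.cast_zero]
      positivity

end Pool.Agent.E8helper73.ZO
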