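import Pool.Agent.E8helper73.ZO.Multi

/-!
# The comparison of the growths
-/

set_option autoImplicit false

namespace Pool.Agent.E8helper73.ZO

open Finset

lemma KK_eq (g : ℕ → ℕ) (n : ℕ) : ∀ a b : ℕ, KK g n a b = ∑ ij ∈ antidiagonal n,
    n.choose ij.1 * ((a + ij.1 + (b + ij.2)).choose (a + ij.1) * g (a + ij.1)) := by
  induction n with
  | zero =>
    intro a b
    rw [KK, Finset.Nat.antidiagonal_zero, Finset.sum_singleton]
    simp
  | succ n ih =>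
    intro a b
    rw [KK, ih, ih]
    have h := Finset.sum_antidiagonal_choose_succ_mul (R := ℕ)
      (fun i j => (a + i + (b + j)).choose (a + i) * g (a + i)) n
    simp only [Nat.cast_id] at h
    rw [h, add_comm]
    congr 1
    · refine Finset.sum_congr rfl fun ij hij => ?_
      have h1 : b + 1 + ij.2 = b + (ij.2 + 1) := by omega
      rw [h1]
    · refine Finset.sum_congr rfl fun ij hij => ?_
      have h1 : a + 1 + ij.1 = a + (ij.1 + 1) := by omega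
      have h2 : n.choose ij.1 = n.choose ij.2 := by
        have h3 := Finset.HasAntidiagonal.mem_antidiagonal.1 hij
        rw [← h3]
        exact Nat.choose_symm_add
      rw [h1, h2]

lemma KK_lower {g : ℕ → ℕ} {κ s : ℝ} (hκ : 0 ≤ κ) (h : ∀ k, κ * s ^ (2 * k) ≤ g k)
    (n : ℕ) : κ * (1 + s) ^ (2 * n) ≤ (n + 1) * (KK g n 0 0 : ℕ) := by
  have h1 : (∑ ij ∈ antidiagonal n, (n.choose ij.1 : ℝ) * s ^ ij.1) = (1 + s) ^ n := by
    rw [Finset.Nat.sum_antidiagonal_eq_sum_range_succ (fun i _ => (n.choose i : ℝ) * s ^ i) n,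
      add_comm 1 s, add_pow]
    refine Finset.sum_congr rfl fun i _ => ?_
    rw [one_pow]
    ring
  have h2 := sq_sum_le_card_mul_sum_sq (s := antidiagonal n)
    (f := fun ij => (n.choose ij.1 : ℝ) * s ^ ij.1)
  rw [h1, Finset.Nat.card_antidiagonal] at h2
  have h3 : κ * ∑ ij ∈ antidiagonal n, ((n.choose ij.1 : ℝ) * s ^ ij.1) ^ 2 ≤
      (KK g n 0 0 : ℕ) := by
    rw [KK_eq, Nat.cast_sum, Finset.mul_sum]
    refine Finset.sum_le_sum fun ij hij => ?_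
    have h4 := Finset.HasAntidiagonal.mem_antidiagonal.1 hij
    have h5 : 0 + ij.1 + (0 + ij.2) = n := by omega
    rw [h5, zero_add]
    push_cast
    have h6 := h ij.1
    calc κ * ((n.choose ij.1 : ℝ) * s ^ ij.1) ^ 2
        = (n.choose ij.1 : ℝ) * ((n.choose ij.1 : ℝ) * (κ * s ^ (2 * ij.1))) := by
          rw [mul_pow, ← pow_mul, mul_comm ij.1 2]; ring
      _ ≤ _ := by gcongr
  calc κ * (1 + s) ^ (2 * n) = κ * ((1 + s) ^ n) ^ 2 := by rw [← pow_mul, mul_comm n 2]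
    _ ≤ κ * (((n + 1 : ℕ) : ℝ) * ∑ ij ∈ antidiagonal n, ((n.choose ij.1 : ℝ) * s ^ ij.1) ^ 2) :=
        mul_le_mul_of_nonneg_left h2 hκ
    _ = ((n : ℝ) + 1) * (κ * ∑ ij ∈ antidiagonal n, ((n.choose ij.1 : ℝ) * s ^ ij.1) ^ 2) := by
        push_cast; ring
    _ ≤ _ := mul_le_mul_of_nonneg_left h3 (by positivity)

open Filter Topology in
/-- The comparison of the growths. -/
lemma compare2 {G t a : ℕ → ℕ} (h0 : 1 ≤ G 0) (h1 : 1 ≤ G 1)
    (hg : ∀ k l, G (k + 1) * G (l + 1) ≤ G (l + k + 1 + 1)) {M : ℝ} (hM0 : 0 ≤ M)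
    (hM : ∀ k, (G (k + 1) : ℝ) ≤ (M ^ 2) ^ (k + 1)) (ht : ∀ n, KK G n 0 0 ≤ t n)
    (ha : ∀ n, a (n + 1) ^ 2 ≤ G (n + 1) * t (n + 1)) {δ : ℝ} (hδ : M / (1 + M) < δ) :
    ∃ n₀ : ℕ, ∀ n ≥ n₀, (a n : ℝ) ≤ δ ^ n * t n := by
  obtain ⟨c, hc1, hcM, hup, hlow⟩ := exists_rate (g := fun k => G (k + 1)) h1 hg (sq_nonneg M) hM
  have hc0 : 0 ≤ c := by linarith
  set σ : ℝ := Real.sqrt c with hσ
  have hσ2 : σ ^ 2 = c := Real.sq_sqrt hc0
  have hσ1 : 1 ≤ σ := by rw [hσ]; exact Real.one_le_sqrt.2 hc1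
  have hσM : σ ≤ M := by
    rw [hσ, ← Real.sqrt_sq hM0]
    exact Real.sqrt_le_sqrt hcM
  have hδp : 0 < δ := lt_of_le_of_lt (by positivity) hδ
  have h2 : σ / (1 + σ) < δ := by
    refine lt_of_le_of_lt ?_ hδ
    rw [div_le_div_iff₀ (by linarith) (by linarith)]
    nlinarith
  have h3 : σ / δ - 1 < σ := by
    rw [div_lt_iff₀ (by linarith)] at h2
    rw [sub_lt_iff_lt_add, div_lt_iff₀ hδp]
    linarith
  obtain ⟨s, hs1, hs2⟩ := exists_between (max_lt (lt_of_lt_of_le one_pos hσ1) h3)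
  have hs0 : 0 < s := lt_of_le_of_lt (le_max_left _ _) hs1
  have h4 : σ / δ < 1 + s := by
    have := lt_of_le_of_lt (le_max_right _ _) hs1
    linarith
  have hsc : s ^ 2 < c := by
    rw [← hσ2]
    exact pow_lt_pow_left₀ hs2 hs0.le two_ne_zero
  obtain ⟨κ, hκ, hκ'⟩ := hlow (s ^ 2) (sq_nonneg s) hsc
  set κ' : ℝ := min κ 1 with hκ1
  have hκ'0 : 0 < κ' := lt_min hκ one_pos
  have h5 : ∀ k, κ' * s ^ (2 * k) ≤ G k := by
    intro k
    cases k with
    | zero =>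
      rw [mul_zero, pow_zero, mul_one]
      exact (min_le_right _ _).trans (by exact_mod_cast h0)
    | succ k =>
      rw [pow_mul]
      exact (mul_le_mul_of_nonneg_right (min_le_left _ _) (by positivity)).trans (hκ' k)
  have h6 := KK_lower hκ'0.le h5
  set q : ℝ := σ / (1 + s) with hq
  have hq0 : 0 < q := by positivity
  have hqδ : q < δ := by
    rw [hq, div_lt_iff₀ (by linarith)]
    rw [div_lt_iff₀ hδp] at h4
    linarith
  set r : ℝ := (q / δ) ^ 2 with hr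
  have hr0 : 0 ≤ r := sq_nonneg _
  have hr1 : r < 1 := by
    rw [hr]
    exact pow_lt_one₀ (by positivity) ((div_lt_one hδp).2 hqδ) two_ne_zero
  have h7 : Tendsto (fun n : ℕ => ((n : ℝ) + 1) * r ^ n) atTop (𝓝 0) := by
    have e1 := tendsto_self_mul_const_pow_of_lt_one hr0 hr1
    have e2 := tendsto_pow_atTop_nhds_zero_of_lt_one hr0 hr1
    have e3 := e1.add e2
    rw [add_zero] at e3
    refine e3.congr fun n => ?_
    ring
  obtain ⟨n₁, hn₁⟩ := eventually_atTop.1 (h7.eventually (ge_mem_nhds hκ'0))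
  refine ⟨max 1 n₁, fun n hn => ?_⟩
  obtain ⟨m, rfl⟩ : ∃ m, n = m + 1 := ⟨n - 1, by
    have := (le_max_left 1 n₁).trans hn
    omega⟩
  have h8 := hn₁ (m + 1) ((le_max_right _ _).trans hn)
  set N : ℕ := m + 1 with hN
  -- `(N + 1) q ^ (2 N) ≤ κ' δ ^ (2 N)`
  have h9 : ((N : ℝ) + 1) * q ^ (2 * N) ≤ κ' * δ ^ (2 * N) := by
    have e1 : r ^ N = q ^ (2 * N) / δ ^ (2 * N) := by
      rw [hr, ← pow_mul, div_pow]
    rw [e1, ← mul_div_assoc, div_le_iff₀ (by positivity)] at h8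
    exact h8
  have h10 : κ' * (1 + s) ^ (2 * N) ≤ (N + 1) * t N := by
    refine (h6 N).trans ?_
    have := ht N
    gcongr
  have h11 : (a N : ℝ) ^ 2 ≤ c ^ N * t N := by
    have e1 : (a N : ℝ) ^ 2 ≤ G N * t N := by exact_mod_cast ha m
    exact e1.trans (mul_le_mul_of_nonneg_right (hup m) (Nat.cast_nonneg _))
  have h12 : c ^ N = q ^ (2 * N) * (1 + s) ^ (2 * N) := by
    rw [← mul_pow, hq, div_mul_cancel₀ _ (by positivity), pow_mul, hσ2]
  have h13 : c ^ N ≤ δ ^ (2 * N) * t N := by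
    have e1 : κ' * c ^ N ≤ κ' * (δ ^ (2 * N) * t N) := by
      calc κ' * c ^ N = q ^ (2 * N) * (κ' * (1 + s) ^ (2 * N)) := by rw [h12]; ring
        _ ≤ q ^ (2 * N) * ((N + 1) * t N) := by gcongr
        _ = (((N : ℝ) + 1) * q ^ (2 * N)) * t N := by ring
        _ ≤ (κ' * δ ^ (2 * N)) * t N := by gcongr
        _ = _ := by ring
    exact le_of_mul_le_mul_left e1 hκ'0
  have h14 : (a N : ℝ) ^ 2 ≤ (δ ^ N * t N) ^ 2 := by
    calc (a N : ℝ) ^ 2 ≤ c ^ N * t N := h11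
      _ ≤ (δ ^ (2 * N) * t N) * t N := by gcongr
      _ = _ := by ring
  exact le_of_pow_le_pow_left₀ two_ne_zero (by positivity) h14

end Pool.Agent.E8helper73.ZO
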