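import Pool.Agent.E8helper73.ZO.Main
import Pool.Agent.E8helper73.ZO.Rate2

/-!
# The zero-one law, sharper form
-/

set_option autoImplicit false
set_option linter.unusedSectionVars false

open CategoryTheory Limits MonoidalCategory Module Polynomial
open Pool.Agent.Y112.SR Pool.Agent.Y112.KD Pool.Agent.Y112.SC Pool.Agent.R484.NC
open Pool.Agent.Y133.Half

namespace Pool.Agent.E8helper73.ZO

universe v u w

variable {C : Type u} [Category.{v} C] [Preadditive C] [Linear ℚ C] [MonoidalCategory C]
  [MonoidalPreadditive C] [MonoidalLinear ℚ C] [SymmetricCategory C]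
  [RightRigidCategory C] {K : Type w} [Field K] {R : SuperRealisation C K}

variable {M : C}

lemma exists_pow_op (f : M ⟶ M) (k : ℕ) : ∃ g : M ⟶ M, op R g = (op R f) ^ k := by
  induction k with
  | zero => exact ⟨𝟙 M, by rw [R484.NC.op_id R, pow_zero]⟩
  | succ k ih =>
    obtain ⟨g, hg⟩ := ih
    exact ⟨f ≫ g, by rw [R484.NC.op_comp R, hg, pow_succ]⟩

lemma op_neg' (f : M ⟶ M) : op R (-f) = - op R f := by
  have h := R484.NC.op_sub R (0 : M ⟶ M) f
  have h0 : op R (0 : M ⟶ M) = 0 := by rw [op, Functor.map_zero]; rfl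
  rw [zero_sub, h0, zero_sub] at h
  exact h

/-- If the complement is purely even or purely odd, the parity operator is algebraic. -/
lemma cplus_of_pure {e : Module.End K (R.H.obj M)} (heJ : e ∈ idJ R M)
    {u : M ⟶ M} (hu : u ∈ idI R M) (hNu : NT R M (e - op R u)) {s : K} (hs : s = 1 ∨ s = -1)
    (hp : pr R M * (1 - e) = s • (1 - e)) : R.CPlus M := by
  have hK := R_charZero R
  have hss : s * s = 1 := by rcases hs with rfl | rfl <;> ring
  have hs0 : s ≠ 0 := by
    rintro rfl
    rw [zero_mul] at hss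
    exact zero_ne_one hss
  have h3 : pr R M * e ∈ S R M := by
    refine idJ_ind (p := fun x => pr R M * x ∈ S R M) ?_ ?_ ?_ ?_ heJ
    · rintro u ⟨v, hv⟩; rw [← hv]; exact op_S v
    · rw [mul_zero]; exact Submodule.zero_mem _
    · intro a b ha hb; rw [mul_add]; exact Submodule.add_mem _ ha hb
    · intro t a ha; rw [mul_smul_comm]; exact Submodule.smul_mem _ _ ha
  have hpr : pr R M ∈ S R M := by
    have h4 : pr R M = pr R M * e + s • (1 - e) := by
      rw [← hp, mul_sub, mul_one]
      exact (add_sub_cancel _ _).symm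
    rw [h4]
    exact Submodule.add_mem _ h3 (Submodule.smul_mem _ _ (Submodule.sub_mem _ one_S (idJ_S heJ)))
  set D : Module.End K (R.H.obj M) := pr R M - s • 1 with hD
  have hDS : D ∈ S R M := Submodule.sub_mem _ hpr (Submodule.smul_mem _ _ one_S)
  set y := op R (𝟙 M - u) with hy
  have hy1 : y = 1 - op R u := by rw [hy, R484.NC.op_sub R, R484.NC.op_id R]
  have hyD : y * D = D * y := by
    rw [hD, mul_sub, sub_mul, mul_smul_comm, smul_mul_assoc, mul_one, one_mul, hy, pr_op]
  have hDD : D * D = (-(2 * s)) • D := by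
    have h4 : D * D = pr R M * pr R M - (2 * s) • pr R M + (s * s) • 1 := by
      rw [hD, mul_sub, sub_mul, sub_mul, mul_smul_comm, smul_mul_assoc, mul_one, one_mul,
        smul_mul_smul_comm, mul_one, two_mul, add_smul]
      abel
    rw [h4, pr_sq, hss, hD, smul_sub, smul_smul]
    have h5 : -(2 * s) * s = -2 := by
      rw [neg_mul, mul_assoc, hss, mul_one]
    rw [h5, one_smul, neg_smul, neg_smul, two_smul]
    abel
  have hyk : ∀ k : ℕ, y ^ k * D = D * y ^ k := fun k => (Commute.pow_left (show Commute y D from hyD) k).eq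
  have hpow : ∀ k : ℕ, (y * D) ^ (k + 1) = (-(2 * s)) ^ k • (y ^ (k + 1) * D) := by
    intro k
    induction k with
    | zero => rw [zero_add, pow_one, pow_zero, one_smul, pow_one]
    | succ k ih =>
      rw [pow_succ, ih, smul_mul_assoc]
      have h6 : y ^ (k + 1) * D * (y * D) = (-(2 * s)) • (y ^ (k + 1 + 1) * D) := by
        calc y ^ (k + 1) * D * (y * D) = y ^ (k + 1) * (D * y) * D := by simp only [mul_assoc]
          _ = y ^ (k + 1) * y * (D * D) := by rw [← hyD]; simp only [mul_assoc]
          _ = _ := by rw [hDD, mul_smul_comm, pow_succ y (k + 1)]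
      rw [h6, smul_smul, ← pow_succ]
  have hn : IsNilpotent (y * D) := by
    refine nil_of_nt hpr (mul_S (op_S _) hDS) ?_
    have h6 : y * D = (e - op R u) * D := by
      have h7 : (1 - e) * D = 0 := by
        rw [hD, mul_sub, mul_smul_comm, mul_one,
          ← pr_S (Submodule.sub_mem _ one_S (idJ_S heJ)), hp, sub_self]
      have h8 : y = (e - op R u) + (1 - e) := by rw [hy1]; abel
      rw [h8, add_mul, h7, add_zero]
    rw [h6]
    exact hNu.right hDS
  obtain ⟨k, hk⟩ := hn
  have h9 : y ^ (k + 1) * D = 0 := by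
    have h10 := hpow k
    rw [pow_succ, hk, zero_mul] at h10
    have h11 : (-(2 * s)) ^ k ≠ 0 := pow_ne_zero _ (neg_ne_zero.2 (mul_ne_zero two_ne_zero hs0))
    exact ((smul_eq_zero.1 h10.symm).resolve_left h11)
  have h12 : y ^ (k + 1) * pr R M = s • y ^ (k + 1) := by
    rw [hD, mul_sub, mul_smul_comm, mul_one, sub_eq_zero] at h9
    exact h9
  -- a lift
  obtain ⟨g, hg⟩ := exists_pow_op (R := R) (𝟙 M - u) (k + 1)
  have h13 : ∃ g' : M ⟶ M, op R g' = s • y ^ (k + 1) := by
    rcases hs with rfl | rfl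
    · exact ⟨g, by rw [hg, one_smul]⟩
    · exact ⟨-g, by rw [op_neg', hg, neg_smul, one_smul]⟩
  obtain ⟨g', hg'⟩ := h13
  obtain ⟨v, hv⟩ := hu
  have key : ∀ m : ℕ, ∃ w : M ⟶ M, y ^ m = 1 - op R u * op R w := by
    intro m
    induction m with
    | zero =>
      refine ⟨0, ?_⟩
      have h0 : op R (0 : M ⟶ M) = 0 := by rw [op, Functor.map_zero]; rfl
      rw [pow_zero, h0, mul_zero, sub_zero]
    | succ m ih =>
      obtain ⟨w, hw⟩ := ih
      refine ⟨𝟙 M + (𝟙 M - u) ≫ w, ?_⟩
      rw [pow_succ, hw, hy1, R484.NC.op_add R, R484.NC.op_comp R, R484.NC.op_sub R,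
        R484.NC.op_id R]
      noncomm_ring
  obtain ⟨w, hw⟩ := key (k + 1)
  rw [cplus_iff]
  refine ⟨g' + w ≫ v, ?_⟩
  apply ModuleCat.hom_ext
  change op R (g' + w ≫ v) = pr R M
  have h14 : (1 : Module.End K (R.H.obj M)) = y ^ (k + 1) + op R u * op R w := by
    rw [hw, sub_add_cancel]
  rw [R484.NC.op_add R, R484.NC.op_comp R, hg', hv]
  calc s • y ^ (k + 1) + pr R M * op R u * op R w
      = y ^ (k + 1) * pr R M + pr R M * (op R u * op R w) := by rw [h12, mul_assoc]
    _ = pr R M * (y ^ (k + 1) + op R u * op R w) := by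
        rw [mul_add]
        congr 1
        rw [← hg, ← pr_op]
    _ = pr R M := by rw [← h14, mul_one]

/-- The complement has dimension at least two. -/
lemma two_le_rank {e : Module.End K (R.H.obj M)} (heJ : e ∈ idJ R M) (hee : e * e = e)
    {u : M ⟶ M} (hu : u ∈ idI R M) (hNu : NT R M (e - op R u)) (hC : ¬ R.CPlus M) :
    finrank K (LinearMap.range e) + 2 ≤ finrank K (R.H.obj M) := by
  have hK := R_charZero R
  have hff : (1 - e) * (1 - e) = 1 - e := by rw [mul_sub, sub_mul, sub_mul, hee]; simp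
  have h1 : finrank K (LinearMap.range e) + finrank K (LinearMap.range (1 - e)) =
      finrank K (R.H.obj M) := by
    have t1 := trace_idem (K := K) hee
    have t2 := trace_idem (K := K) hff
    have t3 : LinearMap.trace K (R.H.obj M) 1 = finrank K (R.H.obj M) := LinearMap.trace_one K _
    have t4 : LinearMap.trace K (R.H.obj M) e + LinearMap.trace K (R.H.obj M) (1 - e) =
        LinearMap.trace K (R.H.obj M) 1 := by rw [← map_add, add_sub_cancel]
    rw [t1, t2, t3] at t4
    exact_mod_cast t4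
  rw [← h1]
  refine Nat.add_le_add_left ?_ _
  by_contra hlt
  have h2 : finrank K (LinearMap.range (1 - e)) ≤ 1 := by omega
  set f : Module.End K (R.H.obj M) := 1 - e with hf
  have hfS : f ∈ S R M := Submodule.sub_mem _ one_S (idJ_S heJ)
  have hpf : pr R M * f = f * pr R M := pr_S hfS
  obtain ⟨⟨a, ha⟩, hv⟩ := finrank_le_one_iff.1 h2
  have hfa : f a = a := by
    obtain ⟨y0, hy0⟩ := ha
    rw [← hy0]
    exact LinearMap.congr_fun hff y0
  have hall : ∀ x, ∃ c : K, c • a = f x := by
    intro x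
    obtain ⟨c, hc⟩ := hv ⟨f x, x, rfl⟩
    exact ⟨c, congrArg Subtype.val hc⟩
  by_cases ha0 : a = 0
  · have hf0 : f = 0 := by
      apply LinearMap.ext
      intro x
      obtain ⟨c, hc⟩ := hall x
      rw [← hc, ha0, smul_zero]
      rfl
    exact hC (cplus_of_pure heJ hu hNu (Or.inl rfl) (by
      rw [← hf, hf0, mul_zero, smul_zero]))
  · obtain ⟨c, hc⟩ : ∃ c : K, c • a = pr R M a := by
      obtain ⟨c, hc⟩ := hall (pr R M a)
      refine ⟨c, ?_⟩
      rw [hc]
      have h3 : f (pr R M a) = pr R M (f a) := (LinearMap.congr_fun hpf a).symm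
      rw [h3, hfa]
    have hcc : c = 1 ∨ c = -1 := by
      have h3 : pr R M (pr R M a) = a := LinearMap.congr_fun (pr_sq (R := R) (X := M)) a
      rw [← hc, map_smul, ← hc, smul_smul] at h3
      have h4 : (c * c - 1) • a = 0 := by rw [sub_smul, h3, one_smul, sub_self]
      have h5 : c * c - 1 = 0 := (smul_eq_zero.1 h4).resolve_right ha0
      exact mul_self_eq_one_iff.1 (sub_eq_zero.1 h5)
    refine hC (cplus_of_pure heJ hu hNu hcc ?_)
    apply LinearMap.ext
    intro x
    obtain ⟨d, hd⟩ := hall x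
    change pr R M (f x) = c • f x
    rw [← hd, map_smul, ← hc, smul_comm]

/-- **The zero-one law, sharper form.** -/
theorem main2 (hU : UnitQ C) (R : SuperRealisation C K) (M : C) : ∃ u v : M ⟶ M,
    R.H.map v = R.H.map u ≫ R.par M ∧
    (∀ (n : ℕ) (x : tp M n ⟶ tp M n), (∃ x', GoodEnd R M n x' ∧ NumZero hU (x - x')) ↔
      NumZero hU (x - x ≫ tpm u n)) ∧
    (R.CPlus M ↔ IsNilpotent (op R (𝟙 M - u))) ∧
    (NumZero hU (𝟙 M - u) → ¬ R.CPlus M → ∀ n : ℕ,
      numDim hU (Set.univ : Set (tp M (n + 1) ⟶ tp M (n + 1))) ≤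
        ((finrank K (R.H.obj M) - 2) ^ 2) ^ (n + 1)) ∧
    (¬ NumZero hU (𝟙 M - u) → 2 ≤ finrank K (R.H.obj M) ∧
      ∀ δ : ℝ, 1 - 1 / ((finrank K (R.H.obj M) : ℝ) - 1) < δ → ∃ n₀ : ℕ, ∀ n ≥ n₀,
      (numDim hU {x : tp M n ⟶ tp M n | GoodEnd R M n x} : ℝ) ≤
        δ ^ n * numDim hU (Set.univ : Set (tp M n ⟶ tp M n))) := by
  have hK := R_charZero R
  obtain ⟨e, heJ, hee, htr⟩ := exists_eps R M
  have he : e ∈ S R M := idJ_S heJ
  have hff : (1 - e) * (1 - e) = 1 - e := by rw [mul_sub, sub_mul, sub_mul, hee]; simp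
  obtain ⟨u, hu, htru, hNu⟩ := exists_u hU heJ htr
  have hiff : NumZero hU (𝟙 M - u) ↔ NT R M (1 - e) := by
    constructor
    · intro h1 y hy
      have h2 := nt_of_numZero (R := R) hU h1 y hy
      have h3 := hNu y hy
      rw [R484.NC.op_sub R, R484.NC.op_id R, sub_mul, st_sub, sub_eq_zero] at h2
      rw [sub_mul, st_sub, sub_eq_zero] at h3
      rw [sub_mul, st_sub, h3, ← h2, sub_self]
    · intro h1
      apply numZero_of_nt (R := R) hU
      intro y hy
      have h2 := h1 y hy
      have h3 := hNu y hy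
      rw [sub_mul, st_sub, sub_eq_zero] at h2 h3
      rw [R484.NC.op_sub R, R484.NC.op_id R, sub_mul, st_sub, ← h3, ← h2, sub_self]
  have hopx : ∀ (n : ℕ) (x : tp M n ⟶ tp M n),
      op R (x - x ≫ tpm u n) = (1 - pin R M (op R u) n) * op R x := by
    intro n x
    rw [R484.NC.op_sub R, R484.NC.op_comp R, sub_mul, one_mul, op_tpm]
  obtain ⟨v, hv⟩ := hu
  have hu : u ∈ idI R M := ⟨v, hv⟩
  have hrk : ¬ R.CPlus M → finrank K (LinearMap.range e) + 2 ≤ finrank K (R.H.obj M) :=
    two_le_rank heJ hee hu hNu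
  have hCN : R.CPlus M → NT R M (1 - e) := by
    intro h
    rw [cplus_iff] at h
    obtain ⟨g, hg⟩ := h
    have h1 : (𝟙 M : M ⟶ M) ∈ idI R M := ⟨g, by
      rw [R484.NC.op_id R, mul_one]
      exact congrArg ModuleCat.Hom.hom hg⟩
    intro y hy
    refine st_idJ htr ?_
    have h4 := idJ_left hy (op_idJ h1)
    rwa [R484.NC.op_id R, mul_one] at h4
  refine ⟨u, v, ModuleCat.hom_ext hv, fun n x => ⟨?_, fun hx => ?_⟩, ⟨fun h => ?_, fun h => ?_⟩,
    fun hN h n => ?_, fun hNz => ?_⟩
  · rintro ⟨x', hx', hN⟩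
    apply numZero_of_nt (R := R) hU
    rw [hopx]
    have h1 : NT R (tp M n) ((1 - pin R M (op R u) n) * op R x') := good_nt (op_S u) htru hx'
    have h2 : NT R (tp M n) (op R (x - x')) := nt_of_numZero (R := R) hU hN
    have h3 := h2.left (y := 1 - pin R M (op R u) n)
      (Submodule.sub_mem _ one_S (pin_S (op_S u) n))
    have h4 := h3.add h1
    rwa [← mul_add, R484.NC.op_sub R, sub_add_cancel] at h4
  · exact ⟨x ≫ tpm u n, good_comp hu n x, hx⟩
  · -- the sign conjecture implies nilpotency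
    rw [cplus_iff] at h
    obtain ⟨g, hg⟩ := h
    have h1 : (𝟙 M : M ⟶ M) ∈ idI R M := ⟨g, by
      rw [R484.NC.op_id R, mul_one]
      exact congrArg ModuleCat.Hom.hom hg⟩
    have hpr : pr R M ∈ S R M := by
      have h2 : pr R M = op R g := (congrArg ModuleCat.Hom.hom hg).symm
      rw [h2]; exact op_S g
    refine nil_of_nt hpr (op_S _) fun y hy => ?_
    have h3 : y ∈ idJ R M := by
      have h4 := idJ_left hy (op_idJ h1)
      rwa [R484.NC.op_id R, mul_one] at h4
    rw [R484.NC.op_sub R, R484.NC.op_id R]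
    exact st_idJ htru h3
  · exact cplus_of_nil hu h
  · refine (numDim_small hU he hee (hiff.1 hN) n _).trans ?_
    have := hrk h
    exact Nat.pow_le_pow_left (Nat.pow_le_pow_left (by omega) 2) _
  · have hN : ¬ NT R M (1 - e) := fun h => hNz (hiff.2 h)
    have hrk := hrk fun h => hN (hCN h)
    refine ⟨by omega, fun δ hδ => ?_⟩
    have hb2 : (2 : ℝ) ≤ finrank K (R.H.obj M) := by
      have : 2 ≤ finrank K (R.H.obj M) := by omega
      exact_mod_cast this
    have hδ0 : 0 < δ := by
      refine lt_of_le_of_lt ?_ hδ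
      rw [sub_nonneg, div_le_one (by linarith)]
      linarith
    -- the case where the ideal is numerically trivial
    by_cases hE : 1 ≤ en R M e
    · have hf : 1 ≤ en R M (1 - e) := by
        unfold NT at hN
        push Not at hN
        obtain ⟨y, hy, hy'⟩ := hN
        exact en_pos hff hy hy'
      have hb : ((finrank K (R.H.obj M) - 2 : ℕ) : ℝ) = (finrank K (R.H.obj M) : ℝ) - 2 := by
        rw [Nat.cast_sub (by omega), Nat.cast_ofNat]
      have hfS : (1 - e) ∈ S R M := Submodule.sub_mem _ one_S he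
      have hef : e * (1 - e) = 0 := by rw [mul_sub, mul_one, hee, sub_self]
      have hfe : (1 - e) * e = 0 := by rw [sub_mul, one_mul, hee, sub_self]
      refine compare2 (G := fun k => en R (tp M k) (pin R M e k))
        (t := fun n => numDim hU (Set.univ : Set (tp M n ⟶ tp M n)))
        (a := fun n => numDim hU {x : tp M n ⟶ tp M n | GoodEnd R M n x})
        (M := (finrank K (R.H.obj M) : ℝ) - 2) en_unit ?_ ?_ (by linarith) ?_ ?_ ?_ ?_
      · -- the first value
        exact (Nat.mul_le_mul (en_unit (R := R) (M := M)) hE).trans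
          (en_mul (R := R) (X := tp M 0) (Y := M) 1 e)
      · -- supermultiplicativity
        intro k l
        have h1 := en_mul (R := R) (pin R M e (k + 1)) (pin R M e (l + 1))
        rw [en_iso_eq (compat_twAdd e (k + 1) (l + 1))] at h1
        have h2 : (k + 1) + (l + 1) = l + k + 1 + 1 := by ring
        rw [h2] at h1
        exact h1
      · intro k
        have h1 := en_le_sq (R := R) (X := tp M (k + 1)) (pin R M e (k + 1))
        rw [rank_pin hee] at h1
        have h2 : (en R (tp M (k + 1)) (pin R M e (k + 1)) : ℝ) ≤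
            (((finrank K (R.H.obj M) - 2 : ℕ) : ℝ) ^ 2) ^ (k + 1) := by
          have h3 : en R (tp M (k + 1)) (pin R M e (k + 1)) ≤
              ((finrank K (R.H.obj M) - 2) ^ 2) ^ (k + 1) := by
            refine h1.trans ?_
            rw [← pow_mul, mul_comm, pow_mul]
            exact Nat.pow_le_pow_left (Nat.pow_le_pow_left (by omega) 2) _
          exact_mod_cast h3
        rwa [hb] at h2
      · intro n
        exact (count he hfS hee hff hef hfe (add_sub_cancel _ _) hf n).trans
          (le_numDim (R := R) hU (tp M n))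
      · intro n
        have h1 : numDim hU {x : tp M (n + 1) ⟶ tp M (n + 1) | GoodEnd R M (n + 1) x} ≤
            rr R (tp M (n + 1)) (pin R M e (n + 1)) :=
          numDim_le hU _ _ fun x hx => good_nt he htr hx
        have h2 := rr_sq (R := R) (pin_S he (n + 1)) (pin_idem hee (n + 1))
        have h3 := le_numDim (R := R) hU (tp M (n + 1))
        exact (Nat.pow_le_pow_left h1 2).trans (h2.trans (Nat.mul_le_mul_left _ h3))
      · refine lt_of_eq_of_lt ?_ hδ
        have h1 : 1 + ((finrank K (R.H.obj M) : ℝ) - 2) = (finrank K (R.H.obj M) : ℝ) - 1 := by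
          ring
        have h2 : (finrank K (R.H.obj M) : ℝ) - 1 ≠ 0 := by
          have : (0 : ℝ) < (finrank K (R.H.obj M) : ℝ) - 1 := by linarith
          exact this.ne'
        rw [h1]
        field_simp
        ring
    · -- all elements of the ideal are numerically trivial
      refine ⟨1, fun n hn => ?_⟩
      obtain ⟨m, rfl⟩ : ∃ m, n = m + 1 := ⟨n - 1, by omega⟩
      have h1 : ∀ u ∈ idI R M, st R M ((1 - 0) * op R u) = 0 := by
        intro u hu
        have h2 := htr u hu
        have h3 : st R M (e * op R u) = 0 := by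
          by_contra h4
          exact hE (en_pos hee (op_S u) h4)
        rw [sub_mul, st_sub, h3, sub_zero] at h2
        rw [sub_zero]
        exact h2
      have h2 : numDim hU {x : tp M (m + 1) ⟶ tp M (m + 1) | GoodEnd R M (m + 1) x} ≤
          rr R (tp M (m + 1)) (pin R M 0 (m + 1)) :=
        numDim_le hU _ _ fun x hx => good_nt (Submodule.zero_mem _) h1 hx
      have h3 := rr_sq (R := R) (pin_S (R := R) (M := M) (Submodule.zero_mem _) (m + 1))
        (pin_idem (mul_zero 0) (m + 1))
      have h4 : en R (tp M (m + 1)) (pin R M 0 (m + 1)) = 0 := by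
        have h5 := en_le_sq (R := R) (X := tp M (m + 1)) (pin R M 0 (m + 1))
        rw [rank_pin (mul_zero 0), LinearMap.range_zero, finrank_bot, zero_pow (Nat.succ_ne_zero m),
          zero_pow two_ne_zero] at h5
        exact Nat.le_zero.1 h5
      rw [h4, zero_mul] at h3
      have h5 : rr R (tp M (m + 1)) (pin R M 0 (m + 1)) = 0 :=
        pow_eq_zero_iff two_ne_zero |>.1 (Nat.le_zero.1 h3)
      rw [h5] at h2
      rw [Nat.le_zero.1 h2, Nat.cast_zero]
      positivity

end Pool.Agent.E8helper73.ZO
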