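import Pool.Agent.E8helper73.ZO.Grow

/-!
# Multiplicities in the tensor powers
-/

set_option autoImplicit false
set_option linter.unusedSectionVars false

open CategoryTheory Limits MonoidalCategory Module
open Pool.Agent.Y112.SR Pool.Agent.Y112.KD Pool.Agent.Y112.SC Pool.Agent.R484.NC
open Pool.Agent.Y133.Half

namespace Pool.Agent.E8helper73.ZO

universe v u w

variable {C : Type u} [Category.{v} C] [Preadditive C] [Linear ℚ C] [MonoidalCategory C]
  [MonoidalPreadditive C] [MonoidalLinear ℚ C] [SymmetricCategory C]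
  [RightRigidCategory C] {K : Type w} [Field K] {R : SuperRealisation C K}

variable {M X Y : C}

/-- The dimension of the space of the morphisms from `(X, p)` to `(X, q)` modulo numerical
equivalence. -/
noncomputable def e2 (R : SuperRealisation C K) (X : C) (p q : Module.End K (R.H.obj X)) : ℕ :=
  rk (be R X p q)

lemma e2_self (p : Module.End K (R.H.obj X)) : e2 R X p p = en R X p := rfl

lemma le_e2 {ι : Type} [Fintype ι] [DecidableEq ι] {p q : Module.End K (R.H.obj X)}
    (x y : ι → Module.End K (R.H.obj X)) (hx : ∀ i, x i ∈ S R X) (hy : ∀ i, y i ∈ S R X)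
    (h : ∀ i j, st R X (p * (x i * (q * y j))) = if i = j then 1 else 0) :
    Fintype.card ι ≤ e2 R X p q :=
  card_le_rk (β := be R X p q) (fun i => ⟨x i, hx i⟩) (fun i => ⟨y i, hy i⟩) h

lemma exists_e2 (R : SuperRealisation C K) (X : C) (p q : Module.End K (R.H.obj X)) :
    ∃ x y : Fin (e2 R X p q) → Module.End K (R.H.obj X), (∀ i, x i ∈ S R X) ∧
      (∀ i, y i ∈ S R X) ∧ ∀ i j, st R X (p * (x i * (q * y j))) = if i = j then 1 else 0 := by
  obtain ⟨x, y, h⟩ := exists_dual (be R X p q)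
  exact ⟨fun i => (x i : Module.End K (R.H.obj X)), fun i => (y i : Module.End K (R.H.obj X)),
    fun i => (x i).2, fun i => (y i).2, h⟩

lemma e2_symm {p q : Module.End K (R.H.obj X)} (hp : p ∈ S R X) :
    e2 R X p q ≤ e2 R X q p := by
  obtain ⟨x, y, hx, hy, h⟩ := exists_e2 R X p q
  have h1 := le_e2 (p := q) (q := p) y x hy hx ?_
  · rwa [Fintype.card_fin] at h1
  · intro i j
    have h2 : st R X (q * (y i * (p * x j))) = st R X (p * (x j * (q * y i))) := by
      rw [← mul_assoc q, st_comm (pr_S (mul_S hp (hx j))), mul_assoc]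
    rw [h2, h]
    simp only [eq_comm]

lemma e2_add {p p' q : Module.End K (R.H.obj X)} (hp : p ∈ S R X) (hp' : p' ∈ S R X)
    (hq : q ∈ S R X) (hpp : p * p = p) (hpp' : p' * p' = p') (h1 : p * p' = 0) (h2 : p' * p = 0)
    (hqq : q * q = q) : e2 R X p q + e2 R X p' q ≤ e2 R X (p + p') q := by
  obtain ⟨x, y, hx, hy, h⟩ := exists_e2 R X p q
  obtain ⟨x', y', hx', hy', h'⟩ := exists_e2 R X p' q
  have a1 : (p + p') * p = p := by rw [add_mul, hpp, h2, add_zero]
  have a2 : (p + p') * p' = p' := by rw [add_mul, hpp', h1, zero_add]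
  have h3 := le_e2 (R := R) (X := X) (p := p + p') (q := q)
    (ι := Fin (e2 R X p q) ⊕ Fin (e2 R X p' q))
    (Sum.elim (fun i => p * x i * q) (fun i => p' * x' i * q))
    (Sum.elim (fun i => q * y i * p) (fun i => q * y' i * p')) ?_ ?_ ?_
  · rwa [Fintype.card_sum, Fintype.card_fin, Fintype.card_fin] at h3
  · rintro (i | i)
    · exact mul_S (mul_S hp (hx i)) hq
    · exact mul_S (mul_S hp' (hx' i)) hq
  · rintro (i | i)
    · exact mul_S (mul_S hq (hy i)) hp
    · exact mul_S (mul_S hq (hy' i)) hp'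
  · rintro (i | i) (j | j)
    · simp only [Sum.elim_inl, Sum.inl.injEq]
      rw [← h i j]
      have e1 : (p + p') * (p * x i * q * (q * (q * y j * p))) = (p * (x i * (q * y j))) * p := by
        calc (p + p') * (p * x i * q * (q * (q * y j * p)))
            = ((p + p') * p) * (x i * ((q * q) * q * y j)) * p := by simp only [mul_assoc]
          _ = _ := by rw [a1, hqq, hqq]
      rw [e1, st_comm (pr_S hp), ← mul_assoc, hpp]
    · simp only [Sum.elim_inl, Sum.elim_inr, reduceCtorEq, if_false]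
      have e1 : (p + p') * (p * x i * q * (q * (q * y' j * p'))) =
          (p * (x i * (q * q * q * y' j))) * p' := by
        calc (p + p') * (p * x i * q * (q * (q * y' j * p')))
            = ((p + p') * p) * (x i * ((q * q) * q * y' j)) * p' := by simp only [mul_assoc]
          _ = _ := by rw [a1]
      rw [e1, st_comm (pr_S hp'), ← mul_assoc, h2, zero_mul, st_zero]
    · simp only [Sum.elim_inl, Sum.elim_inr, reduceCtorEq, if_false]
      have e1 : (p + p') * (p' * x' i * q * (q * (q * y j * p))) =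
          (p' * (x' i * (q * q * q * y j))) * p := by
        calc (p + p') * (p' * x' i * q * (q * (q * y j * p)))
            = ((p + p') * p') * (x' i * ((q * q) * q * y j)) * p := by simp only [mul_assoc]
          _ = _ := by rw [a2]
      rw [e1, st_comm (pr_S hp), ← mul_assoc, h1, zero_mul, st_zero]
    · simp only [Sum.elim_inr, Sum.inr.injEq]
      rw [← h' i j]
      have e1 : (p + p') * (p' * x' i * q * (q * (q * y' j * p'))) =
          (p' * (x' i * (q * y' j))) * p' := by
        calc (p + p') * (p' * x' i * q * (q * (q * y' j * p')))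
            = ((p + p') * p') * (x' i * ((q * q) * q * y' j)) * p' := by simp only [mul_assoc]
          _ = _ := by rw [a2, hqq, hqq]
      rw [e1, st_comm (pr_S hp'), ← mul_assoc, hpp']

/-- Conjugation of one of the two idempotents. -/
lemma e2_conj {τ : X ≅ X} {p p' : Module.End K (R.H.obj X)} (h : Compat R τ p p')
    (q : Module.End K (R.H.obj X)) : e2 R X p q ≤ e2 R X p' q := by
  obtain ⟨x, y, hx, hy, hxy⟩ := exists_e2 R X p q
  have hc : p' * op R τ.hom = op R τ.hom * p := Eq.symm h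
  have hi : op R τ.inv * op R τ.hom = (1 : Module.End K (R.H.obj X)) := mp_inv_hom τ
  have h1 := le_e2 (R := R) (X := X) (p := p') (q := q) (ι := Fin (e2 R X p q))
    (fun i => op R τ.hom * x i) (fun i => y i * op R τ.inv) (fun i => mul_S (op_S _) (hx i))
    (fun i => mul_S (hy i) (op_S _)) ?_
  · rwa [Fintype.card_fin] at h1
  · intro i j
    rw [← hxy i j]
    have e1 : p' * (op R τ.hom * x i * (q * (y j * op R τ.inv))) =
        (op R τ.hom * (p * (x i * (q * y j)))) * op R τ.inv := by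
      calc p' * (op R τ.hom * x i * (q * (y j * op R τ.inv)))
          = (p' * op R τ.hom) * (x i * (q * (y j * op R τ.inv))) := by simp only [mul_assoc]
        _ = _ := by rw [hc]; simp only [mul_assoc]
    rw [e1, st_comm (pr_S (op_S _)), ← mul_assoc, hi, one_mul]

/-- Isomorphisms. -/
lemma e2_iso {θ : X ≅ Y} {p q : Module.End K (R.H.obj X)} {p' q' : Module.End K (R.H.obj Y)}
    (hp : Compat R θ p p') (hq : Compat R θ q q') : e2 R X p q ≤ e2 R Y p' q' := by
  obtain ⟨x, y, hx, hy, hxy⟩ := exists_e2 R X p q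
  have h1 := le_e2 (R := R) (X := Y) (p := p') (q := q') (ι := Fin (e2 R X p q))
    (fun i => cj θ (x i)) (fun i => cj θ (y i)) (fun i => cj_S θ (hx i)) (fun i => cj_S θ (hy i)) ?_
  · rwa [Fintype.card_fin] at h1
  · intro i j
    rw [← hxy i j, ← cj_compat hp, ← cj_compat hq, ← cj_mul, ← cj_mul, ← cj_mul, st_cj]

lemma Compat.one (θ : X ≅ Y) : Compat R θ (1 : Module.End K (R.H.obj X)) 1 := by
  rw [Compat]
  change mp R θ.hom ∘ₗ LinearMap.id = LinearMap.id ∘ₗ mp R θ.hom
  rw [LinearMap.comp_id, LinearMap.id_comp]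

/-- The idempotent `p` of `X` is isomorphic to `e` on `a` factors `M` and `f` on `b` factors. -/
def Ty (R : SuperRealisation C K) (M : C) (e f : Module.End K (R.H.obj M)) (X : C)
    (p : Module.End K (R.H.obj X)) (a b : ℕ) : Prop :=
  ∃ θ : X ≅ tp M a ⊗ tp M b, Compat R θ p (ext R (pin R M e a) (pin R M f b))

variable {e f : Module.End K (R.H.obj M)}

lemma Ty.right {p : Module.End K (R.H.obj X)} {a b : ℕ} (h : Ty R M e f X p a b) :
    Ty R M e f (X ⊗ M) (ext R p f) a (b + 1) := by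
  obtain ⟨θ, hθ⟩ := h
  exact ⟨tensorIso θ (Iso.refl M) ≪≫ α_ _ _ _,
    (hθ.tensor (Compat.refl f)).trans (Compat.assoc _ _ _)⟩

lemma Ty.left (he : e ∈ S R M) (hf : f ∈ S R M) {p : Module.End K (R.H.obj X)} {a b : ℕ}
    (h : Ty R M e f X p a b) : Ty R M e f (X ⊗ M) (ext R p e) (a + 1) b := by
  obtain ⟨θ, hθ⟩ := h
  exact ⟨tensorIso θ (Iso.refl M) ≪≫ (α_ _ _ _ ≪≫ (tensorIso (Iso.refl _) (β_ _ _) ≪≫
    (α_ _ _ _).symm)), (hθ.tensor (Compat.refl e)).trans ((Compat.assoc _ _ _).trans
      (((Compat.refl _).tensor (Compat.braid (pr_S (pin_S hf b)) (pr_S he))).trans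
        (Compat.assoc _ _ _).symm))⟩

lemma Ty.iso {p : Module.End K (R.H.obj X)} {q : Module.End K (R.H.obj Y)} {a b : ℕ} {θ : Y ≅ X}
    (h : Compat R θ q p) (hp : Ty R M e f X p a b) : Ty R M e f Y q a b := by
  obtain ⟨η, hη⟩ := hp
  exact ⟨θ ≪≫ η, h.trans hη⟩

lemma Ty.zero : Ty R M e f (tp M 0) 1 0 0 :=
  ⟨(ρ_ (tp M 0)).symm, (Compat.unitor (1 : Module.End K (R.H.obj (tp M 0)))).symm⟩

lemma en_unit : 1 ≤ en R (tp M 0) (1 : Module.End K (R.H.obj (tp M 0))) := by
  refine en_pos (one_mul 1) one_S ?_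
  rw [one_mul]
  have h3 : st R (tp M 0) 1 = 1 := by
    have h4 : pr R (tp M 0) = 1 := congrArg ModuleCat.Hom.hom R.par_unit
    rw [st, h4, one_mul, LinearMap.trace_one]
    have h5 : R.H.obj (𝟙_ C) ≅ 𝟙_ (ModuleCat.{w} K) := (Functor.Monoidal.εIso R.H).symm
    have h6 := h5.toLinearEquiv.finrank_eq
    have h7 : finrank K (R.H.obj (tp M 0)) = 1 := by
      refine h6.trans ?_
      exact Module.finrank_self K
    rw [h7, Nat.cast_one]
  rw [h3]
  exact one_ne_zero

lemma en_pin_pos (hf : 1 ≤ en R M f) (n : ℕ) : 1 ≤ en R (tp M n) (pin R M f n) := by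
  induction n with
  | zero => exact en_unit
  | succ n ih => exact (Nat.mul_le_mul ih hf).trans (en_mul (pin R M f n) f)

lemma e2_ty (hf : 1 ≤ en R M f) {p q : Module.End K (R.H.obj X)} {a b : ℕ}
    (hp : Ty R M e f X p a b) (hq : Ty R M e f X q a b) :
    en R (tp M a) (pin R M e a) ≤ e2 R X p q := by
  obtain ⟨θ, hθ⟩ := hp
  obtain ⟨θ', hθ'⟩ := hq
  have h1 := en_mul (R := R) (pin R M e a) (pin R M f b)
  rw [← en_iso_eq hθ'] at h1
  have h2 := e2_conj (hθ'.trans hθ.symm) q
  rw [e2_self] at h2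
  have h3 : en R (tp M a) (pin R M e a) * 1 ≤ en R (tp M a) (pin R M e a) *
      en R (tp M b) (pin R M f b) := Nat.mul_le_mul_left _ (en_pin_pos hf b)
  rw [mul_one] at h3
  exact h3.trans (h1.trans h2)

/-- `X ⊗ M ⊗ ⋯ ⊗ M` -/
def tpx (M : C) : ℕ → C → C
  | 0, X => X
  | n + 1, X => tpx M n (X ⊗ M)

/-- `p ⊗ 1 ⊗ ⋯ ⊗ 1` -/
noncomputable def ex (R : SuperRealisation C K) (M : C) : ∀ (n : ℕ) (X : C),
    Module.End K (R.H.obj X) → Module.End K (R.H.obj (tpx M n X))
  | 0, _, p => p
  | n + 1, X, p => ex R M n (X ⊗ M) (ext R p (1 : Module.End K (R.H.obj M)))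

lemma ex_add (n : ℕ) : ∀ (X : C) (p q : Module.End K (R.H.obj X)),
    ex R M n X (p + q) = ex R M n X p + ex R M n X q := by
  induction n with
  | zero => intro X p q; rfl
  | succ n ih =>
    intro X p q
    rw [ex, ext_add_left, ih]
    rfl

lemma ex_mul (n : ℕ) : ∀ (X : C) (p q : Module.End K (R.H.obj X)),
    ex R M n X (p * q) = ex R M n X p * ex R M n X q := by
  induction n with
  | zero => intro X p q; rfl
  | succ n ih =>
    intro X p q
    have h : ext R (p * q) (1 : Module.End K (R.H.obj M)) = ext R p 1 * ext R q 1 := by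
      rw [ext_mul, one_mul]
    rw [ex, h, ih]
    rfl

lemma ex_one (n : ℕ) : ∀ (X : C), ex R M n X 1 = 1 := by
  induction n with
  | zero => intro X; rfl
  | succ n ih =>
    intro X
    rw [ex, ext_one, ih]
    rfl

lemma ex_zero (n : ℕ) : ∀ (X : C), ex R M n X 0 = 0 := by
  induction n with
  | zero => intro X; rfl
  | succ n ih =>
    intro X
    rw [ex, ext_zero_left, ih]
    rfl

lemma ex_S (n : ℕ) : ∀ (X : C) (p : Module.End K (R.H.obj X)), p ∈ S R X →
    ex R M n X p ∈ S R (tpx M n X) := by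
  induction n with
  | zero => intro X p hp; exact hp
  | succ n ih => intro X p hp; exact ih _ _ (ext_S hp one_S)

/-- the two halves -/
lemma ex_split (he : e ∈ S R M) (hf : f ∈ S R M) (hee : e * e = e) (hff : f * f = f)
    (hef : e * f = 0) (hfe : f * e = 0) (h1 : e + f = 1) (n : ℕ) (X : C)
    {p : Module.End K (R.H.obj X)} (hp : p ∈ S R X) (hpp : p * p = p)
    {q : Module.End K (R.H.obj (tpx M (n + 1) X))} (hq : q ∈ S R (tpx M (n + 1) X))
    (hqq : q * q = q) :
    e2 R (tpx M n (X ⊗ M)) (ex R M n (X ⊗ M) (ext R p e)) q +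
      e2 R (tpx M n (X ⊗ M)) (ex R M n (X ⊗ M) (ext R p f)) q ≤
    e2 R (tpx M (n + 1) X) (ex R M (n + 1) X p) q := by
  have h2 := e2_add (R := R) (X := tpx M n (X ⊗ M)) (p := ex R M n (X ⊗ M) (ext R p e))
    (p' := ex R M n (X ⊗ M) (ext R p f)) (q := q) (ex_S n _ _ (ext_S hp he))
    (ex_S n _ _ (ext_S hp hf)) hq (by rw [← ex_mul, ext_mul, hpp, hee])
    (by rw [← ex_mul, ext_mul, hpp, hff])
    (by rw [← ex_mul, ext_mul, hef, ext_zero_right, ex_zero])
    (by rw [← ex_mul, ext_mul, hfe, ext_zero_right, ex_zero]) hqq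
  rw [← ex_add, ← ext_add_right, h1] at h2
  exact h2

/-- The first count. -/
lemma count1 (he : e ∈ S R M) (hf : f ∈ S R M) (hee : e * e = e) (hff : f * f = f)
    (hef : e * f = 0) (hfe : f * e = 0) (h1 : e + f = 1) (hf1 : 1 ≤ en R M f) (n : ℕ) :
    ∀ (j l : ℕ), j + l = n → ∀ (X : C) (p : Module.End K (R.H.obj X)), p ∈ S R X → p * p = p →
      ∀ (a b c d : ℕ), c = a + j → d = b + l → Ty R M e f X p a b →
      ∀ q : Module.End K (R.H.obj (tpx M n X)), q ∈ S R (tpx M n X) → q * q = q →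
      Ty R M e f (tpx M n X) q c d →
      n.choose j * en R (tp M c) (pin R M e c) ≤ e2 R (tpx M n X) (ex R M n X p) q := by
  induction n with
  | zero =>
    intro j l hjl X p hp hpp a b c d hc hd hT q hq hqq hTq
    obtain rfl : j = 0 := by omega
    obtain rfl : l = 0 := by omega
    rw [add_zero] at hc hd
    subst hc hd
    rw [Nat.choose_self, one_mul]
    exact e2_ty hf1 hT hTq
  | succ n ih =>
    intro j l hjl X p hp hpp a b c d hc hd hT q hq hqq hTq
    refine le_trans ?_ (ex_split he hf hee hff hef hfe h1 n X hp hpp hq hqq)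
    have hpe : ext R p e * ext R p e = ext R p e := ext_idem hpp hee
    have hpf : ext R p f * ext R p f = ext R p f := ext_idem hpp hff
    cases j with
    | zero =>
      have h3 := ih 0 n (by omega) (X ⊗ M) (ext R p f) (ext_S hp hf) hpf a (b + 1) c d
        (by omega) (by omega) hT.right q hq hqq hTq
      rw [Nat.choose_zero_right] at h3 ⊢
      exact h3.trans (Nat.le_add_left _ _)
    | succ j =>
      have h3 := ih j l (by omega) (X ⊗ M) (ext R p e) (ext_S hp he) hpe (a + 1) b c d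
        (by omega) (by omega) (hT.left he hf) q hq hqq hTq
      rw [Nat.choose_succ_succ, add_mul]
      refine Nat.add_le_add h3 ?_
      cases l with
      | zero =>
        have h4 : n.choose (j + 1) = 0 := Nat.choose_eq_zero_of_lt (by omega)
        rw [Nat.succ_eq_add_one, h4, zero_mul]
        exact Nat.zero_le _
      | succ l =>
        exact ih (j + 1) l (by omega) (X ⊗ M) (ext R p f) (ext_S hp hf) hpf a (b + 1) c d
          (by omega) (by omega) hT.right q hq hqq hTq

/-- `tpx M n (tp M m) ≅ tp M (m + n)` -/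
lemma exists_tpx (M : C) (n : ℕ) : ∀ m : ℕ, Nonempty (tpx M n (tp M m) ≅ tp M (m + n)) := by
  induction n with
  | zero => intro m; exact ⟨Iso.refl _⟩
  | succ n ih =>
    intro m
    obtain ⟨θ⟩ := ih (m + 1)
    have h : m + 1 + n = m + (n + 1) := by omega
    rw [h] at θ
    exact ⟨θ⟩

/-- The count on the tensor power. -/
lemma count2 (he : e ∈ S R M) (hf : f ∈ S R M) (hee : e * e = e) (hff : f * f = f)
    (hef : e * f = 0) (hfe : f * e = 0) (h1 : e + f = 1) (hf1 : 1 ≤ en R M f) (m : ℕ)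
    (a b : ℕ) (hab : a + b = m) (q : Module.End K (R.H.obj (tp M m))) (hq : q ∈ S R (tp M m))
    (hqq : q * q = q) (hT : Ty R M e f (tp M m) q a b) :
    m.choose a * en R (tp M a) (pin R M e a) ≤ e2 R (tp M m) 1 q := by
  obtain ⟨θ⟩ := exists_tpx M m 0
  have h0 : 0 + m = m := by omega
  rw [h0] at θ
  have hc : Compat R θ.symm q (cj θ.symm q) := by
    have h2 : cj θ.symm q = mp R θ.inv ∘ₗ q ∘ₗ mp R θ.hom := rfl
    have h3 : mp R θ.hom ∘ₗ mp R θ.inv = LinearMap.id := mp_hom_inv θ
    rw [Compat, h2]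
    change mp R θ.inv ∘ₗ q = (mp R θ.inv ∘ₗ q ∘ₗ mp R θ.hom) ∘ₗ mp R θ.inv
    rw [LinearMap.comp_assoc, LinearMap.comp_assoc, h3, LinearMap.comp_id]
  have h2 := count1 he hf hee hff hef hfe h1 hf1 m a b hab (tp M 0) 1 one_S (one_mul 1) 0 0 a b
    (by omega) (by omega) Ty.zero (cj θ.symm q) (cj_S _ hq) (by rw [← cj_mul, hqq])
    (hT.iso hc.symm)
  rw [ex_one] at h2
  exact h2.trans (e2_iso (Compat.one θ) hc.symm)

/-- The recursive lower bound. -/
def KK (g : ℕ → ℕ) : ℕ → ℕ → ℕ → ℕ
  | 0, a, b => (a + b).choose a * g a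
  | n + 1, a, b => KK g n (a + 1) b + KK g n a (b + 1)

/-- The second count. -/
lemma count3 (he : e ∈ S R M) (hf : f ∈ S R M) (hee : e * e = e) (hff : f * f = f)
    (hef : e * f = 0) (hfe : f * e = 0) (h1 : e + f = 1) (hf1 : 1 ≤ en R M f) (n : ℕ) :
    ∀ (m a b : ℕ), a + b = m → ∀ (p : Module.End K (R.H.obj (tp M m))), p ∈ S R (tp M m) →
      p * p = p → Ty R M e f (tp M m) p a b →
      KK (fun k => en R (tp M k) (pin R M e k)) n a b ≤
        e2 R (tpx M n (tp M m)) (ex R M n (tp M m) p) 1 := by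
  induction n with
  | zero =>
    intro m a b hab p hp hpp hT
    have h2 := count2 he hf hee hff hef hfe h1 hf1 m a b hab p hp hpp hT
    subst hab
    exact h2.trans (e2_symm one_S)
  | succ n ih =>
    intro m a b hab p hp hpp hT
    refine le_trans ?_ (ex_split he hf hee hff hef hfe h1 n (tp M m) hp hpp one_S (one_mul 1))
    exact Nat.add_le_add (ih (m + 1) (a + 1) b (by omega) (ext R p e) (ext_S hp he)
      (ext_idem hpp hee) (hT.left he hf)) (ih (m + 1) a (b + 1) (by omega) (ext R p f)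
      (ext_S hp hf) (ext_idem hpp hff) hT.right)

/-- The lower bound for the tensor power. -/
lemma count (he : e ∈ S R M) (hf : f ∈ S R M) (hee : e * e = e) (hff : f * f = f)
    (hef : e * f = 0) (hfe : f * e = 0) (h1 : e + f = 1) (hf1 : 1 ≤ en R M f) (n : ℕ) :
    KK (fun k => en R (tp M k) (pin R M e k)) n 0 0 ≤ en R (tp M n) 1 := by
  have h2 := count3 he hf hee hff hef hfe h1 hf1 n 0 0 0 rfl 1 one_S (one_mul 1) Ty.zero
  rw [ex_one, e2_self] at h2
  obtain ⟨θ⟩ := exists_tpx M n 0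
  have h0 : 0 + n = n := by omega
  rw [h0] at θ
  exact h2.trans (en_iso (Compat.one θ))

end Pool.Agent.E8helper73.ZO
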