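import Pool.Agent.R484.NCb
import Pool.Agent.Y133.Half.BC

/-!
# The zero-one law for the sign conjecture: operators
-/

set_option autoImplicit false
set_option linter.unusedSectionVars false
set_option backward.isDefEq.respectTransparency false
set_option backward.defeqAttrib.useBackward true

open CategoryTheory Limits MonoidalCategory Module
open Pool.Agent.Y112.SR Pool.Agent.Y112.KD Pool.Agent.Y112.SC Pool.Agent.R484.NC
open Pool.Agent.Y133.Half

namespace Pool.Agent.E8helper73.ZO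

universe v u w

open Functor.LaxMonoidal Functor.OplaxMonoidal

section

variable {C : Type u} [Category.{v} C] [Preadditive C] [MonoidalCategory C] [SymmetricCategory C]
  {K : Type w} [Field K] (R : SuperRealisation C K)

/-- The symmetry is natural with respect to even operators. -/
lemma bx_braid2 (h2 : (2 : K) ≠ 0) {X Y : C} (b : R.H.obj X ⟶ R.H.obj X)
    (c : R.H.obj Y ⟶ R.H.obj Y)
    (hb : b ≫ R.par X = R.par X ≫ b) (hc : c ≫ R.par Y = R.par Y ≫ c) :
    bx R b c ≫ R.H.map (β_ X Y).hom = R.H.map (β_ X Y).hom ≫ bx R c b := by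
  have h3 : (b ⊗ₘ c) ≫ (𝟙 _ + R.par X ▷ R.H.obj Y + R.H.obj X ◁ R.par Y - (R.par X ⊗ₘ R.par Y)) =
      (𝟙 _ + R.par X ▷ R.H.obj Y + R.H.obj X ◁ R.par Y - (R.par X ⊗ₘ R.par Y)) ≫ (b ⊗ₘ c) := by
    simp only [Preadditive.sub_comp, Preadditive.add_comp, Preadditive.comp_sub,
      Preadditive.comp_add, Category.id_comp, Category.comp_id, ← tensorHom_id, ← id_tensorHom,
      tensorHom_comp_tensorHom, hb, hc]
  have h4 : (2 : K) • ((b ⊗ₘ c) ≫ μ R.H X Y ≫ R.H.map (β_ X Y).hom) =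
      (2 : K) • (μ R.H X Y ≫ R.H.map (β_ X Y).hom ≫ δ R.H Y X ≫ (c ⊗ₘ b) ≫ μ R.H Y X) := by
    rw [← Linear.comp_smul, R.symm, ← Category.assoc (b ⊗ₘ c), h3, Category.assoc,
      BraidedCategory.braiding_naturality_assoc]
    have h5 : (2 : K) • (μ R.H X Y ≫ R.H.map (β_ X Y).hom ≫ δ R.H Y X ≫ (c ⊗ₘ b) ≫ μ R.H Y X) =
        ((2 : K) • (μ R.H X Y ≫ R.H.map (β_ X Y).hom)) ≫ δ R.H Y X ≫ (c ⊗ₘ b) ≫ μ R.H Y X := by
      rw [Linear.smul_comp, Category.assoc]
    rw [h5, R.symm]
    simp only [Category.assoc, Functor.Monoidal.μ_δ_assoc]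
  have h5 := congrArg (fun z => (2 : K)⁻¹ • z) h4
  simp only [smul_smul, inv_mul_cancel₀ h2, one_smul] at h5
  rw [bx, Category.assoc, Category.assoc, h5, bx, Functor.Monoidal.δ_μ_assoc]

end

section

variable {C : Type u} [Category.{v} C] [Preadditive C] [Linear ℚ C] [MonoidalCategory C]
  [MonoidalPreadditive C] [MonoidalLinear ℚ C] [SymmetricCategory C]
  [RightRigidCategory C] {K : Type w} [Field K] (R : SuperRealisation C K)

/-- The parity operator. -/
noncomputable def pr (X : C) : Module.End K (R.H.obj X) := (R.par X).hom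

/-- The tensor product of operators. -/
noncomputable def ext {X Y : C} (a : Module.End K (R.H.obj X)) (b : Module.End K (R.H.obj Y)) :
    Module.End K (R.H.obj (X ⊗ Y)) := (bx R (ModuleCat.ofHom a) (ModuleCat.ofHom b)).hom

lemma ext_mul {X Y : C} (a a' : Module.End K (R.H.obj X)) (b b' : Module.End K (R.H.obj Y)) :
    ext R a b * ext R a' b' = ext R (a * a') (b * b') := by
  have h := bx_comp R (ModuleCat.ofHom a') (ModuleCat.ofHom a) (ModuleCat.ofHom b')
    (ModuleCat.ofHom b)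
  exact congrArg ModuleCat.Hom.hom h

lemma ext_one {X Y : C} : ext R (1 : Module.End K (R.H.obj X)) (1 : Module.End K (R.H.obj Y)) = 1 :=
  congrArg ModuleCat.Hom.hom (bx_one R X Y)

lemma ext_op {X Y : C} (f : X ⟶ X) (g : Y ⟶ Y) : ext R (op R f) (op R g) = op R (f ⊗ₘ g) :=
  congrArg ModuleCat.Hom.hom (bx_map R f g)

lemma ext_pr (X Y : C) : ext R (pr R X) (pr R Y) = pr R (X ⊗ Y) :=
  congrArg ModuleCat.Hom.hom (bx_par R X Y)

lemma ext_add_left {X Y : C} (a a' : Module.End K (R.H.obj X)) (b : Module.End K (R.H.obj Y)) :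
    ext R (a + a') b = ext R a b + ext R a' b :=
  congrArg ModuleCat.Hom.hom (bx_add_left R (ModuleCat.ofHom a) (ModuleCat.ofHom a')
    (ModuleCat.ofHom b))

lemma ext_add_right {X Y : C} (a : Module.End K (R.H.obj X)) (b b' : Module.End K (R.H.obj Y)) :
    ext R a (b + b') = ext R a b + ext R a b' :=
  congrArg ModuleCat.Hom.hom (bx_add_right R (ModuleCat.ofHom a) (ModuleCat.ofHom b)
    (ModuleCat.ofHom b'))

lemma ext_smul_left {X Y : C} (t : K) (a : Module.End K (R.H.obj X))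
    (b : Module.End K (R.H.obj Y)) : ext R (t • a) b = t • ext R a b :=
  congrArg ModuleCat.Hom.hom (bx_smul_left R t (ModuleCat.ofHom a) (ModuleCat.ofHom b))

lemma ext_smul_right {X Y : C} (t : K) (a : Module.End K (R.H.obj X))
    (b : Module.End K (R.H.obj Y)) : ext R a (t • b) = t • ext R a b :=
  congrArg ModuleCat.Hom.hom (bx_smul_right R t (ModuleCat.ofHom a) (ModuleCat.ofHom b))

lemma ext_zero_left {X Y : C} (b : Module.End K (R.H.obj Y)) :
    ext R (0 : Module.End K (R.H.obj X)) b = 0 := by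
  have := ext_smul_left R (0 : K) (0 : Module.End K (R.H.obj X)) b
  simpa using this

lemma ext_zero_right {X Y : C} (a : Module.End K (R.H.obj X)) :
    ext R a (0 : Module.End K (R.H.obj Y)) = 0 := by
  have := ext_smul_right R (0 : K) a (0 : Module.End K (R.H.obj Y))
  simpa using this

lemma ext_sub_left {X Y : C} (a a' : Module.End K (R.H.obj X)) (b : Module.End K (R.H.obj Y)) :
    ext R (a - a') b = ext R a b - ext R a' b := by
  have h := ext_add_left R (a - a') a' b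
  rw [sub_add_cancel] at h
  rw [h, add_sub_cancel_right]

lemma ext_sub_right {X Y : C} (a : Module.End K (R.H.obj X)) (b b' : Module.End K (R.H.obj Y)) :
    ext R a (b - b') = ext R a b - ext R a b' := by
  have h := ext_add_right R a (b - b') b'
  rw [sub_add_cancel] at h
  rw [h, add_sub_cancel_right]

/-- The super trace. -/
noncomputable def st (X : C) (x : Module.End K (R.H.obj X)) : K :=
  LinearMap.trace K (R.H.obj X) (pr R X * x)

lemma st_op {X : C} (f : X ⟶ X) : st R X (op R f) = str R f := rfl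

lemma st_add {X : C} (x y : Module.End K (R.H.obj X)) : st R X (x + y) = st R X x + st R X y := by
  rw [st, mul_add, map_add]; rfl

lemma st_sub {X : C} (x y : Module.End K (R.H.obj X)) : st R X (x - y) = st R X x - st R X y := by
  rw [st, mul_sub, map_sub]; rfl

lemma st_smul {X : C} (t : K) (x : Module.End K (R.H.obj X)) : st R X (t • x) = t * st R X x := by
  rw [st, mul_smul_comm, map_smul]; rfl

lemma st_zero {X : C} : st R X 0 = 0 := by rw [st, mul_zero, map_zero]

/-- The span of the algebraic operators. -/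
def S (X : C) : Submodule K (Module.End K (R.H.obj X)) :=
  Submodule.span K (Set.range fun f : X ⟶ X => op R f)

variable {R}

lemma S_ind {X : C} {p : Module.End K (R.H.obj X) → Prop} (h : ∀ f : X ⟶ X, p (op R f)) (h0 : p 0)
    (hadd : ∀ a b, p a → p b → p (a + b)) (hs : ∀ (t : K) a, p a → p (t • a))
    {x : Module.End K (R.H.obj X)} (hx : x ∈ S R X) : p x := by
  induction hx using Submodule.span_induction with
  | mem x hx => obtain ⟨f, rfl⟩ := hx; exact h f
  | zero => exact h0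
  | add x y _ _ hx hy => exact hadd x y hx hy
  | smul t x _ hx => exact hs t x hx

lemma op_S {X : C} (f : X ⟶ X) : op R f ∈ S R X := Submodule.subset_span ⟨f, rfl⟩

lemma one_S {X : C} : (1 : Module.End K (R.H.obj X)) ∈ S R X := by
  rw [← R484.NC.op_id R X]; exact op_S _

lemma mul_S {X : C} {x y : Module.End K (R.H.obj X)} (hx : x ∈ S R X) (hy : y ∈ S R X) :
    x * y ∈ S R X := by
  refine S_ind (p := fun x => x * y ∈ S R X) ?_ ?_ ?_ ?_ hx
  · intro f
    refine S_ind (p := fun y => op R f * y ∈ S R X) ?_ ?_ ?_ ?_ hy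
    · intro g; rw [← R484.NC.op_comp R]; exact op_S _
    · rw [mul_zero]; exact Submodule.zero_mem _
    · intro a b ha hb; rw [mul_add]; exact Submodule.add_mem _ ha hb
    · intro t a ha; rw [mul_smul_comm]; exact Submodule.smul_mem _ _ ha
  · rw [zero_mul]; exact Submodule.zero_mem _
  · intro a b ha hb; rw [add_mul]; exact Submodule.add_mem _ ha hb
  · intro t a ha; rw [smul_mul_assoc]; exact Submodule.smul_mem _ _ ha

lemma ext_S {X Y : C} {x : Module.End K (R.H.obj X)} {y : Module.End K (R.H.obj Y)}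
    (hx : x ∈ S R X) (hy : y ∈ S R Y) : ext R x y ∈ S R (X ⊗ Y) := by
  refine S_ind (p := fun x => ext R x y ∈ S R (X ⊗ Y)) ?_ ?_ ?_ ?_ hx
  · intro f
    refine S_ind (p := fun y => ext R (op R f) y ∈ S R (X ⊗ Y)) ?_ ?_ ?_ ?_ hy
    · intro g; rw [ext_op]; exact op_S _
    · rw [ext_zero_right]; exact Submodule.zero_mem _
    · intro a b ha hb; rw [ext_add_right]; exact Submodule.add_mem _ ha hb
    · intro t a ha; rw [ext_smul_right]; exact Submodule.smul_mem _ _ ha
  · rw [ext_zero_left]; exact Submodule.zero_mem _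
  · intro a b ha hb; rw [ext_add_left]; exact Submodule.add_mem _ ha hb
  · intro t a ha; rw [ext_smul_left]; exact Submodule.smul_mem _ _ ha

lemma pr_op {X : C} (f : X ⟶ X) : pr R X * op R f = op R f * pr R X :=
  congrArg ModuleCat.Hom.hom (R.par_natural f)

lemma pr_S {X : C} {x : Module.End K (R.H.obj X)} (hx : x ∈ S R X) : pr R X * x = x * pr R X := by
  refine S_ind (p := fun x => pr R X * x = x * pr R X) pr_op ?_ ?_ ?_ hx
  · rw [mul_zero, zero_mul]
  · intro a b ha hb; rw [mul_add, add_mul, ha, hb]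
  · intro t a ha; rw [mul_smul_comm, smul_mul_assoc, ha]

lemma pr_sq {X : C} : pr R X * pr R X = 1 := congrArg ModuleCat.Hom.hom (R.par_sq X)

lemma st_comm {X : C} {x y : Module.End K (R.H.obj X)} (hy : pr R X * y = y * pr R X) :
    st R X (x * y) = st R X (y * x) := by
  rw [st, st, ← mul_assoc, LinearMap.trace_mul_comm, ← mul_assoc, ← hy, mul_assoc]

/-- The partial trace over the second factor. -/
noncomputable def PTo {Q X : C} (x : Module.End K (R.H.obj (Q ⊗ X))) : Module.End K (R.H.obj Q) :=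
  (PT R (ModuleCat.ofHom x)).hom

lemma PTo_op {Q X : C} (y : Q ⊗ X ⟶ Q ⊗ X) : PTo (op R y) = op R (ptr y) :=
  congrArg ModuleCat.Hom.hom (PT_map R y)

lemma PTo_left {Q X : C} (b : Module.End K (R.H.obj Q)) (x : Module.End K (R.H.obj (Q ⊗ X))) :
    PTo (ext R b 1 * x) = b * PTo x := by
  have h := PT_comp R (𝟙 _) (ModuleCat.ofHom b) (ModuleCat.ofHom x)
  rw [bx_one, Category.id_comp, Category.id_comp] at h
  exact congrArg ModuleCat.Hom.hom h

lemma st_PTo {Q X : C} (x : Module.End K (R.H.obj (Q ⊗ X))) : st R Q (PTo x) = st R (Q ⊗ X) x := by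
  have h := trace_PT R (Q := Q) (X := X) (𝟙 _) (ModuleCat.ofHom x)
  rw [bx_one, Category.id_comp, Category.id_comp] at h
  exact h

lemma st_ext {X Y : C} (a : Module.End K (R.H.obj X)) (b : Module.End K (R.H.obj Y)) :
    st R (X ⊗ Y) (ext R a b) = st R X a * st R Y b := by
  have hK := R_charZero R
  rw [← st_PTo]
  have h := PT_bx R two_ne_zero (ModuleCat.ofHom a) (ModuleCat.ofHom b)
  have h2 : PTo (ext R a b) = st R Y b • a := congrArg ModuleCat.Hom.hom h
  rw [h2, st_smul, mul_comm]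

/-- The realisation of a morphism. -/
noncomputable def mp (R : SuperRealisation C K) {X Y : C} (f : X ⟶ Y) :
    R.H.obj X →ₗ[K] R.H.obj Y := (R.H.map f).hom

lemma mp_comp {X Y Z : C} (f : X ⟶ Y) (g : Y ⟶ Z) : mp R (f ≫ g) = mp R g ∘ₗ mp R f := by
  rw [mp, Functor.map_comp]; rfl

lemma mp_id (X : C) : mp R (𝟙 X) = LinearMap.id := by
  rw [mp, CategoryTheory.Functor.map_id]; rfl

lemma mp_inv_hom {X Y : C} (θ : X ≅ Y) : mp R θ.inv ∘ₗ mp R θ.hom = LinearMap.id := by
  rw [← mp_comp, θ.hom_inv_id, mp_id]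

lemma mp_hom_inv {X Y : C} (θ : X ≅ Y) : mp R θ.hom ∘ₗ mp R θ.inv = LinearMap.id := by
  rw [← mp_comp, θ.inv_hom_id, mp_id]

/-- The operators correspond to each other. -/
def Compat (R : SuperRealisation C K) {X Y : C} (θ : X ≅ Y) (a : Module.End K (R.H.obj X))
    (b : Module.End K (R.H.obj Y)) : Prop := mp R θ.hom ∘ₗ a = b ∘ₗ mp R θ.hom

lemma Compat.symm {X Y : C} {θ : X ≅ Y} {a : Module.End K (R.H.obj X)}
    {b : Module.End K (R.H.obj Y)} (h : Compat R θ a b) : Compat R θ.symm b a := by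
  change mp R θ.inv ∘ₗ b = a ∘ₗ mp R θ.inv
  have h1 : mp R θ.inv ∘ₗ (mp R θ.hom ∘ₗ a) ∘ₗ mp R θ.inv =
      mp R θ.inv ∘ₗ (b ∘ₗ mp R θ.hom) ∘ₗ mp R θ.inv := by rw [show mp R θ.hom ∘ₗ a = _ from h]
  rw [LinearMap.comp_assoc, LinearMap.comp_assoc, mp_hom_inv, LinearMap.comp_id,
    ← LinearMap.comp_assoc, mp_inv_hom, LinearMap.id_comp] at h1
  exact h1.symm

lemma Compat.trans {X Y Z : C} {θ : X ≅ Y} {η : Y ≅ Z} {a : Module.End K (R.H.obj X)}
    {b : Module.End K (R.H.obj Y)} {c : Module.End K (R.H.obj Z)} (h : Compat R θ a b)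
    (h' : Compat R η b c) : Compat R (θ ≪≫ η) a c := by
  have h1 : mp R (θ ≪≫ η).hom = mp R η.hom ∘ₗ mp R θ.hom := mp_comp _ _
  rw [Compat, h1, LinearMap.comp_assoc, show mp R θ.hom ∘ₗ a = _ from h, ← LinearMap.comp_assoc,
    show mp R η.hom ∘ₗ b = _ from h', LinearMap.comp_assoc]

lemma Compat.refl {X : C} (a : Module.End K (R.H.obj X)) : Compat R (Iso.refl X) a a := by
  change mp R (𝟙 X) ∘ₗ a = a ∘ₗ mp R (𝟙 X)
  rw [mp_id, LinearMap.id_comp, LinearMap.comp_id]

lemma Compat.braid {X Y : C} {a : Module.End K (R.H.obj X)} {b : Module.End K (R.H.obj Y)}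
    (ha : pr R X * a = a * pr R X) (hb : pr R Y * b = b * pr R Y) :
    Compat R (β_ X Y) (ext R a b) (ext R b a) := by
  have hK := R_charZero R
  exact congrArg ModuleCat.Hom.hom (bx_braid2 R two_ne_zero (ModuleCat.ofHom a)
    (ModuleCat.ofHom b) (ModuleCat.hom_ext ha) (ModuleCat.hom_ext hb))

lemma Compat.assoc {X Y Z : C} (a : Module.End K (R.H.obj X)) (b : Module.End K (R.H.obj Y))
    (c : Module.End K (R.H.obj Z)) :
    Compat R (α_ X Y Z) (ext R (ext R a b) c) (ext R a (ext R b c)) :=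
  congrArg ModuleCat.Hom.hom (bx_assoc R (ModuleCat.ofHom a) (ModuleCat.ofHom b)
    (ModuleCat.ofHom c))

lemma bx_nat {X Y Z W : C} (a : R.H.obj X ⟶ R.H.obj X) (c : R.H.obj Z ⟶ R.H.obj Z)
    (b : R.H.obj Y ⟶ R.H.obj Y) (d : R.H.obj W ⟶ R.H.obj W) (f : X ⟶ Y) (g : Z ⟶ W)
    (h1 : a ≫ R.H.map f = R.H.map f ≫ b) (h2 : c ≫ R.H.map g = R.H.map g ≫ d) :
    bx R a c ≫ R.H.map (f ⊗ₘ g) = R.H.map (f ⊗ₘ g) ≫ bx R b d := by
  rw [Functor.Monoidal.map_tensor, bx, bx]
  simp only [Category.assoc, Functor.Monoidal.μ_δ_assoc]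
  rw [tensorHom_comp_tensorHom_assoc, tensorHom_comp_tensorHom_assoc, h1, h2]

lemma Compat.tensor {X Y Z W : C} {θ : X ≅ Y} {η : Z ≅ W} {a : Module.End K (R.H.obj X)}
    {b : Module.End K (R.H.obj Y)} {c : Module.End K (R.H.obj Z)} {d : Module.End K (R.H.obj W)}
    (h : Compat R θ a b) (h' : Compat R η c d) :
    Compat R (tensorIso θ η) (ext R a c) (ext R b d) :=
  congrArg ModuleCat.Hom.hom (bx_nat (ModuleCat.ofHom a) (ModuleCat.ofHom c) (ModuleCat.ofHom b)
    (ModuleCat.ofHom d) θ.hom η.hom (ModuleCat.hom_ext h) (ModuleCat.hom_ext h'))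

/-- The conjugate operator. -/
noncomputable def cj {X Y : C} (θ : X ≅ Y) (a : Module.End K (R.H.obj X)) :
    Module.End K (R.H.obj Y) := mp R θ.hom ∘ₗ a ∘ₗ mp R θ.inv

lemma cj_op {X Y : C} (θ : X ≅ Y) (f : X ⟶ X) : cj θ (op R f) = op R (θ.inv ≫ f ≫ θ.hom) := by
  have h : op R (θ.inv ≫ f ≫ θ.hom) = mp R (θ.inv ≫ f ≫ θ.hom) := rfl
  rw [h, mp_comp, mp_comp]
  rfl

lemma cj_mul {X Y : C} (θ : X ≅ Y) (a b : Module.End K (R.H.obj X)) :
    cj θ (a * b) = cj θ a * cj θ b := by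
  apply LinearMap.ext
  intro x
  have h : ∀ y, mp R θ.inv (mp R θ.hom y) = y := fun y => LinearMap.congr_fun (mp_inv_hom θ) y
  change mp R θ.hom (a (b (mp R θ.inv x))) =
    mp R θ.hom (a (mp R θ.inv (mp R θ.hom (b (mp R θ.inv x)))))
  rw [h]

lemma cj_compat {X Y : C} {θ : X ≅ Y} {a : Module.End K (R.H.obj X)}
    {b : Module.End K (R.H.obj Y)} (h : Compat R θ a b) : cj θ a = b := by
  rw [cj, ← LinearMap.comp_assoc, show mp R θ.hom ∘ₗ a = _ from h, LinearMap.comp_assoc,
    mp_hom_inv, LinearMap.comp_id]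

lemma cj_S {X Y : C} (θ : X ≅ Y) {a : Module.End K (R.H.obj X)} (ha : a ∈ S R X) :
    cj θ a ∈ S R Y := by
  refine S_ind (p := fun a => cj θ a ∈ S R Y) ?_ ?_ ?_ ?_ ha
  · intro f; rw [cj_op]; exact op_S _
  · have : cj θ (0 : Module.End K (R.H.obj X)) = 0 := by rw [cj]; simp
    rw [this]; exact Submodule.zero_mem _
  · intro a b ha hb
    have : cj θ (a + b) = cj θ a + cj θ b := by
      rw [cj, LinearMap.add_comp, LinearMap.comp_add]; rfl
    rw [this]; exact Submodule.add_mem _ ha hb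
  · intro t a ha
    have : cj θ (t • a) = t • cj θ a := by
      rw [cj, LinearMap.smul_comp, LinearMap.comp_smul]; rfl
    rw [this]; exact Submodule.smul_mem _ _ ha

lemma pr_mp {X Y : C} (f : X ⟶ Y) : pr R Y ∘ₗ mp R f = mp R f ∘ₗ pr R X :=
  congrArg ModuleCat.Hom.hom (R.par_natural f)

lemma st_cj {X Y : C} (θ : X ≅ Y) (a : Module.End K (R.H.obj X)) : st R Y (cj θ a) = st R X a := by
  have h0 := R.finite X
  have h0' := R.finite Y
  rw [st, st]
  change LinearMap.trace K (R.H.obj Y) (pr R Y ∘ₗ mp R θ.hom ∘ₗ a ∘ₗ mp R θ.inv) =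
    LinearMap.trace K (R.H.obj X) (pr R X ∘ₗ a)
  rw [← LinearMap.comp_assoc, pr_mp, LinearMap.comp_assoc, LinearMap.trace_comp_comm']
  congr 1
  rw [LinearMap.comp_assoc, LinearMap.comp_assoc, mp_inv_hom, LinearMap.comp_id]

end

end Pool.Agent.E8helper73.ZO
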