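import Pool.Agent.E8helper73.ZO.Idem

/-!
# Operators on one factor of a tensor power, and partial traces
-/

set_option autoImplicit false
set_option linter.unusedSectionVars false

open CategoryTheory Limits MonoidalCategory Module
open Pool.Agent.Y112.SR Pool.Agent.Y112.KD Pool.Agent.Y112.SC Pool.Agent.R484.NC
open Pool.Agent.Y133.Half

namespace Pool.Agent.E8helper73.ZO

universe v u w

section defs

variable {C : Type u} [Category.{v} C] [Preadditive C] [MonoidalCategory C] [SymmetricCategory C]
  {K : Type w} [Field K]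

/-- The parity operator of the `i`-th factor `M` of the realisation of the tensor power `M ^ n`. -/
noncomputable def parAt (R : SuperRealisation C K) (M : C) :
    ∀ n : ℕ, Fin n → (R.H.obj (tp M n) ⟶ R.H.obj (tp M n))
  | 0, i => i.elim0
  | n + 1, i => Fin.lastCases (bx R (𝟙 (R.H.obj (tp M n))) (R.par M))
      (fun j => bx R (parAt R M n j) (𝟙 (R.H.obj M))) i

/-- The endomorphism `x` of the tensor power `M ^ n` is good if all its parity components are
algebraic: the product of its realisation and the parity operator of each of the factors is the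
realisation of an endomorphism. -/
def GoodEnd (R : SuperRealisation C K) (M : C) (n : ℕ) (x : tp M n ⟶ tp M n) : Prop :=
  ∀ i : Fin n, ∃ y : tp M n ⟶ tp M n, R.H.map y = R.H.map x ≫ parAt R M n i

end defs

variable {C : Type u} [Category.{v} C] [Preadditive C] [Linear ℚ C] [MonoidalCategory C]
  [MonoidalPreadditive C] [MonoidalLinear ℚ C] [SymmetricCategory C]
  [RightRigidCategory C] {K : Type w} [Field K] {R : SuperRealisation C K}

/-- The operator `a` on the `i`-th factor. -/
noncomputable def pa (R : SuperRealisation C K) (M : C) (a : Module.End K (R.H.obj M)) :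
    ∀ n : ℕ, Fin n → Module.End K (R.H.obj (tp M n))
  | 0, i => i.elim0
  | n + 1, i => Fin.lastCases (ext R (1 : Module.End K (R.H.obj (tp M n))) a)
      (fun j => ext R (pa R M a n j) (1 : Module.End K (R.H.obj M))) i

/-- The tensor power of an operator. -/
noncomputable def pin (R : SuperRealisation C K) (M : C) (a : Module.End K (R.H.obj M)) :
    ∀ n : ℕ, Module.End K (R.H.obj (tp M n))
  | 0 => 1
  | n + 1 => ext R (pin R M a n) a

variable {M : C}

lemma pa_last (a : Module.End K (R.H.obj M)) (n : ℕ) :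
    pa R M a (n + 1) (Fin.last n) = ext R (1 : Module.End K (R.H.obj (tp M n))) a := by
  rw [pa, Fin.lastCases_last]

lemma pa_cast (a : Module.End K (R.H.obj M)) (n : ℕ) (i : Fin n) :
    pa R M a (n + 1) i.castSucc = ext R (pa R M a n i) (1 : Module.End K (R.H.obj M)) := by
  rw [pa, Fin.lastCases_castSucc]

lemma parAt_last (n : ℕ) :
    parAt R M (n + 1) (Fin.last n) = bx R (𝟙 (R.H.obj (tp M n))) (R.par M) := by
  rw [parAt, Fin.lastCases_last]

lemma parAt_cast (n : ℕ) (i : Fin n) :
    parAt R M (n + 1) i.castSucc = bx R (parAt R M n i) (𝟙 (R.H.obj M)) := by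
  rw [parAt, Fin.lastCases_castSucc]

lemma parAt_hom (n : ℕ) (i : Fin n) : (parAt R M n i).hom = pa R M (pr R M) n i := by
  induction n with
  | zero => exact i.elim0
  | succ n ih =>
    refine Fin.lastCases ?_ (fun j => ?_) i
    · rw [parAt_last, pa_last]; rfl
    · rw [parAt_cast, pa_cast, ← ih]; rfl

lemma pa_S {a : Module.End K (R.H.obj M)} (ha : a ∈ S R M) (n : ℕ) (i : Fin n) :
    pa R M a n i ∈ S R (tp M n) := by
  induction n with
  | zero => exact i.elim0
  | succ n ih =>
    refine Fin.lastCases ?_ (fun j => ?_) i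
    · rw [pa_last]; exact ext_S one_S ha
    · rw [pa_cast]; exact ext_S (ih j) one_S

lemma pa_sub (a b : Module.End K (R.H.obj M)) (n : ℕ) (i : Fin n) :
    pa R M (a - b) n i = pa R M a n i - pa R M b n i := by
  induction n with
  | zero => exact i.elim0
  | succ n ih =>
    refine Fin.lastCases ?_ (fun j => ?_) i
    · rw [pa_last, pa_last, pa_last, ext_sub_right]
    · rw [pa_cast, pa_cast, pa_cast, ih, ext_sub_left]

lemma pa_one (n : ℕ) (i : Fin n) : pa R M 1 n i = 1 := by
  induction n with
  | zero => exact i.elim0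
  | succ n ih =>
    refine Fin.lastCases ?_ (fun j => ?_) i
    · rw [pa_last, ext_one]
    · rw [pa_cast, ih, ext_one]

/-- The partial trace over all factors but the `i`-th. -/
lemma exists_ptr (R : SuperRealisation C K) (M : C) (n : ℕ) (i : Fin n) :
    ∃ Ψ : Module.End K (R.H.obj (tp M n)) → Module.End K (R.H.obj M),
      (∀ y : tp M n ⟶ tp M n, ∃ u : M ⟶ M, Ψ (op R y) = op R u) ∧
      (∀ a : Module.End K (R.H.obj M), pr R M * a = a * pr R M →
        ∀ x, Ψ (pa R M a n i * x) = a * Ψ x) ∧
      ∀ x, st R M (Ψ x) = st R (tp M n) x := by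
  induction n with
  | zero => exact i.elim0
  | succ n ih =>
    refine Fin.lastCases ?_ (fun j => ?_) i
    · refine ⟨fun x => PTo (cj (β_ (tp M n) M) x), fun y =>
        ⟨ptr ((β_ (tp M n) M).inv ≫ y ≫ (β_ (tp M n) M).hom), ?_⟩, fun a ha x => ?_, fun x => ?_⟩
      · change PTo (cj (β_ (tp M n) M) (op R y)) = _
        rw [cj_op, PTo_op]
      · have h1 : Compat R (β_ (tp M n) M) (ext R (1 : Module.End K (R.H.obj (tp M n))) a)
            (ext R a 1) := Compat.braid (by rw [mul_one, one_mul]) ha
        change PTo (cj (β_ (tp M n) M) (pa R M a (n + 1) (Fin.last n) * x)) = _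
        rw [pa_last, cj_mul, cj_compat h1, PTo_left]
      · change st R M (PTo (cj (β_ (tp M n) M) x)) = _
        rw [st_PTo, st_cj]
    · obtain ⟨Ψ, h1, h2, h3⟩ := ih j
      refine ⟨fun x => Ψ (PTo x), fun y => ?_, fun a ha x => ?_, fun x => ?_⟩
      · obtain ⟨u, hu⟩ := h1 (ptr y)
        exact ⟨u, by rw [← hu]; exact congrArg Ψ (PTo_op y)⟩
      · change Ψ (PTo (pa R M a (n + 1) j.castSucc * x)) = _
        rw [pa_cast, PTo_left, h2 a ha]
      · change st R M (Ψ (PTo x)) = _
        rw [h3, st_PTo]

/-- The main lemma for one factor. -/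
lemma one_factor {g : Module.End K (R.H.obj M)} (hg : g ∈ S R M)
    (htr : ∀ u ∈ idI R M, st R M (g * op R u) = 0) {n : ℕ} {x : tp M n ⟶ tp M n}
    (hx : GoodEnd R M n x) (i : Fin n) : NT R (tp M n) (pa R M g n i * op R x) := by
  obtain ⟨y, hy⟩ := hx i
  have hy' : op R y = pa R M (pr R M) n i * op R x := by
    rw [← parAt_hom]
    exact congrArg ModuleCat.Hom.hom hy
  obtain ⟨Ψ, h1, h2, h3⟩ := exists_ptr R M n i
  intro z hz
  refine S_ind (p := fun z => st R (tp M n) (pa R M g n i * op R x * z) = 0) ?_ ?_ ?_ ?_ hz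
  · intro f
    rw [← h3, mul_assoc, h2 g (pr_S hg)]
    obtain ⟨u, hu⟩ := h1 (f ≫ x)
    obtain ⟨v, hv⟩ := h1 (f ≫ y)
    rw [R484.NC.op_comp R] at hu hv
    rw [hu]
    apply htr
    refine ⟨v, ?_⟩
    rw [← hv, hy', mul_assoc, h2 (pr R M) rfl, hu]
  · rw [mul_zero, st_zero]
  · intro a b ha hb; rw [mul_add, st_add, ha, hb, add_zero]
  · intro t a ha; rw [mul_smul_comm, st_smul, ha, mul_zero]

lemma NT.zero : NT R M 0 := fun y _ => by rw [zero_mul, st_zero]

lemma NT.add {x y : Module.End K (R.H.obj M)} (hx : NT R M x) (hy : NT R M y) :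
    NT R M (x + y) := fun z hz => by rw [add_mul, st_add, hx z hz, hy z hz, add_zero]

lemma NT.smul {x : Module.End K (R.H.obj M)} (t : K) (hx : NT R M x) : NT R M (t • x) :=
  fun z hz => by rw [smul_mul_assoc, st_smul, hx z hz, mul_zero]

lemma NT.left {x y : Module.End K (R.H.obj M)} (hx : NT R M x) (hy : y ∈ S R M) :
    NT R M (y * x) := fun z hz => by
  rw [mul_assoc, ← st_comm (pr_S hy), mul_assoc]
  exact hx _ (mul_S hz hy)

lemma NT.right {x y : Module.End K (R.H.obj M)} (hx : NT R M x) (hy : y ∈ S R M) :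
    NT R M (x * y) := fun z hz => by
  rw [mul_assoc]
  exact hx _ (mul_S hy hz)

/-- The left ideal generated by the operators `g` on the factors. -/
def LI (R : SuperRealisation C K) (M : C) (g : Module.End K (R.H.obj M)) (n : ℕ) :
    Submodule K (Module.End K (R.H.obj (tp M n))) :=
  Submodule.span K {x | ∃ i : Fin n, ∃ t ∈ S R (tp M n), t * pa R M g n i = x}

lemma LI_ext {g : Module.End K (R.H.obj M)} {n : ℕ} {x : Module.End K (R.H.obj (tp M n))}
    (hx : x ∈ LI R M g n) : ext R x (1 : Module.End K (R.H.obj M)) ∈ LI R M g (n + 1) := by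
  induction hx using Submodule.span_induction with
  | mem x hx =>
    obtain ⟨i, t, ht, rfl⟩ := hx
    refine Submodule.subset_span ⟨i.castSucc, ext R t 1, ext_S ht one_S, ?_⟩
    rw [pa_cast, ext_mul, one_mul]
  | zero => rw [ext_zero_left]; exact Submodule.zero_mem _
  | add x y _ _ hx hy => rw [ext_add_left]; exact Submodule.add_mem _ hx hy
  | smul t x _ hx => rw [ext_smul_left]; exact Submodule.smul_mem _ _ hx

lemma pin_S {e : Module.End K (R.H.obj M)} (he : e ∈ S R M) (n : ℕ) : pin R M e n ∈ S R (tp M n) := by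
  induction n with
  | zero => exact one_S
  | succ n ih => exact ext_S ih he

lemma pin_LI {e : Module.End K (R.H.obj M)} (he : e ∈ S R M) (n : ℕ) :
    1 - pin R M e n ∈ LI R M (1 - e) n := by
  induction n with
  | zero =>
    have : (1 : Module.End K (R.H.obj (tp M 0))) - pin R M e 0 = 0 := sub_self _
    rw [this]; exact Submodule.zero_mem _
  | succ n ih =>
    have h1 : (1 : Module.End K (R.H.obj (tp M (n + 1)))) - pin R M e (n + 1) =
        ext R (1 - pin R M e n) (1 : Module.End K (R.H.obj M)) +
          ext R (pin R M e n) (1 : Module.End K (R.H.obj M)) * ext R 1 (1 - e) := by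
      rw [ext_mul, mul_one, one_mul, ext_sub_left, ext_sub_right, ext_one]
      change 1 - ext R (pin R M e n) e = _
      abel
    rw [h1]
    refine Submodule.add_mem _ (LI_ext ih) (Submodule.subset_span ⟨Fin.last n, _,
      ext_S (pin_S he n) one_S, ?_⟩)
    rw [pa_last]

/-- Good endomorphisms are numerically concentrated on the tensor power of the idempotent. -/
lemma good_nt {e : Module.End K (R.H.obj M)} (he : e ∈ S R M)
    (htr : ∀ u ∈ idI R M, st R M ((1 - e) * op R u) = 0) {n : ℕ} {x : tp M n ⟶ tp M n}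
    (hx : GoodEnd R M n x) : NT R (tp M n) ((1 - pin R M e n) * op R x) := by
  have h1 := pin_LI he n
  generalize (1 - pin R M e n) = T at h1
  induction h1 using Submodule.span_induction with
  | mem y hy =>
    obtain ⟨i, t, ht, rfl⟩ := hy
    rw [mul_assoc]
    exact (one_factor (Submodule.sub_mem _ one_S he) htr hx i).left ht
  | zero => rw [zero_mul]; exact NT.zero
  | add y z _ _ hy hz => rw [add_mul]; exact hy.add hz
  | smul t y _ hy => rw [smul_mul_assoc]; exact hy.smul t

end Pool.Agent.E8helper73.ZO
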